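import Pool.Agent.V1184.PI.Contr

/-!
Integer certificates for `Pool.Agent.V1184.PI.exists_zero`.
-/

namespace Pool.Agent.V1184.PI

/-- The value of a quadratic form at an integer point. -/
def quadZ (V : List ℤ) : List Tm → ℤ
  | [] => 0
  | t :: L => t.1 * V.getD t.2.1 0 * V.getD t.2.2 0 + quadZ V L

/-- The partial derivative of a quadratic form at an integer point. -/
def jacZ (V : List ℤ) (q : ℕ) : List Tm → ℤ
  | [] => 0
  | t :: L => (bif Nat.beq t.2.1 q then t.1 * V.getD t.2.2 0 else 0)
      + (bif Nat.beq t.2.2 q then t.1 * V.getD t.2.1 0 else 0) + jacZ V q L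

/-- The scalar product of two lists. -/
def dot : List ℤ → List ℤ → ℤ
  | a :: as, b :: bs => a * b + dot as bs
  | _, _ => 0

/-- The scalar product of the absolute values. -/
def dotAbs : List ℤ → List ℕ → ℕ
  | a :: as, b :: bs => a.natAbs * b + dotAbs as bs
  | _, _ => 0

/-- The row error of an approximate inverse. -/
def rowErr (S : ℤ) (p : ℕ) (a : List ℤ) : ℕ → List (List ℤ) → ℕ
  | _, [] => 0
  | q, c :: cs => ((bif Nat.beq p q then S else 0) - dot a c).natAbs + rowErr S p a (q + 1) cs

/-- The test of one row. -/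
def rowOK (S : ℤ) (cols : List (List ℤ)) (W : List ℕ) (Q : List ℤ) (K0 K1 K2 : ℕ)
    (p : ℕ) (a : List ℤ) : Bool :=
  Nat.ble (rowErr S p a 0 cols) K0 && Nat.ble (dotAbs a W) K1 && Nat.ble (dot a Q).natAbs K2

/-- The test of all rows. -/
def rowsOK (f : ℕ → List ℤ → Bool) : ℕ → List (List ℤ) → Bool
  | _, [] => true
  | p, a :: as => f p a && rowsOK f (p + 1) as

lemma rowsOK_spec (f : ℕ → List ℤ → Bool) (p0 : ℕ) (as : List (List ℤ))
    (h : rowsOK f p0 as = true) : ∀ k, k < as.length → f (p0 + k) (as.getD k []) = true := by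
  induction as generalizing p0 with
  | nil => intro k hk; simp at hk
  | cons a as ih =>
    rw [rowsOK, Bool.and_eq_true] at h
    intro k hk
    cases k with
    | zero => simpa using h.1
    | succ k =>
      have := ih (p0 + 1) h.2 k (by simpa using hk)
      rw [List.getD_cons_succ]
      rw [show p0 + (k + 1) = p0 + 1 + k by ring]
      exact this

lemma dot_eq (N : ℕ) (as bs : List ℤ) (ha : as.length = N) (hb : bs.length = N) :
    dot as bs = ∑ i : Fin N, as.getD i 0 * bs.getD i 0 := by
  induction N generalizing as bs with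
  | zero =>
    have := List.length_eq_zero_iff.1 ha
    subst this
    simp [dot]
  | succ N ih =>
    obtain ⟨a, as, rfl⟩ := List.exists_cons_of_length_eq_add_one ha
    obtain ⟨b, bs, rfl⟩ := List.exists_cons_of_length_eq_add_one hb
    rw [dot, Fin.sum_univ_succ, ih as bs (by simpa using ha) (by simpa using hb)]
    simp

lemma dotAbs_eq (N : ℕ) (as : List ℤ) (bs : List ℕ) (ha : as.length = N) (hb : bs.length = N) :
    dotAbs as bs = ∑ i : Fin N, (as.getD i 0).natAbs * bs.getD i 0 := by
  induction N generalizing as bs with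
  | zero =>
    have := List.length_eq_zero_iff.1 ha
    subst this
    simp [dotAbs]
  | succ N ih =>
    obtain ⟨a, as, rfl⟩ := List.exists_cons_of_length_eq_add_one ha
    obtain ⟨b, bs, rfl⟩ := List.exists_cons_of_length_eq_add_one hb
    rw [dotAbs, Fin.sum_univ_succ, ih as bs (by simpa using ha) (by simpa using hb)]
    simp

lemma rowErr_eq (S : ℤ) (p : ℕ) (a : List ℤ) (N : ℕ) (q0 : ℕ) (cs : List (List ℤ))
    (hc : cs.length = N) :
    rowErr S p a q0 cs
      = ∑ q : Fin N, ((if p = q0 + q then S else 0) - dot a (cs.getD q [])).natAbs := by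
  induction N generalizing cs q0 with
  | zero =>
    have := List.length_eq_zero_iff.1 hc
    subst this
    simp [rowErr]
  | succ N ih =>
    obtain ⟨c, cs, rfl⟩ := List.exists_cons_of_length_eq_add_one hc
    rw [rowErr, Fin.sum_univ_succ, ih (q0 + 1) cs (by simpa using hc)]
    congr 1
    · have : (bif Nat.beq p q0 then S else 0) = if p = q0 then S else 0 := by
        by_cases h : p = q0
        · subst h; simp
        · have : Nat.beq p q0 = false := by
            rw [← Bool.not_eq_true, Nat.beq_eq]; exact h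
          simp [this, h]
  
      rw [this]; simp
    · apply Finset.sum_congr rfl
      intro q _
      simp only [Fin.val_succ, List.getD_cons_succ]
      simp only [show q0 + ((q : ℕ) + 1) = q0 + 1 + q by ring]

lemma quad_cast (V : List ℤ) (D : ℝ) (L : List Tm) :
    quad L (fun i => (V.getD i 0 : ℝ) / D) = (quadZ V L : ℝ) / D ^ 2 := by
  induction L with
  | nil => simp [quad, quadZ]
  | cons t L ih =>
    rw [quad, quadZ, ih]
    push_cast
    ring

lemma jac_cast (V : List ℤ) (D : ℝ) (q : ℕ) (L : List Tm) :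
    jac L (fun i => (V.getD i 0 : ℝ) / D) q = (jacZ V q L : ℝ) / D := by
  have key : ∀ (a : ℕ) (x : ℤ), (((bif Nat.beq a q then x else 0 : ℤ)) : ℝ)
      = if a = q then (x : ℝ) else 0 := by
    intro a x
    by_cases h : a = q
    · subst h; simp
    · have : Nat.beq a q = false := by
        rw [← Bool.not_eq_true, Nat.beq_eq]; exact h
      simp [this, h]
  induction L with
  | nil => simp [jac, jacZ]
  | cons t L ih =>
    rw [jac, jacZ, ih]
    push_cast
    rw [key, key]
    split_ifs <;> push_cast <;> ring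

/-- The certificate theorem. -/
theorem exists_zero_int (N M : ℕ) (hNM : N ≤ M) (Ls : List (List Tm)) (hLs : Ls.length = N)
    (hM : ∀ L ∈ Ls, ∀ t ∈ L, t.2.1 < M ∧ t.2.2 < M)
    (V : List ℤ) (rows cols : List (List ℤ)) (W : List ℕ) (Q : List ℤ)
    (hrows : rows.length = N) (hrow : ∀ a ∈ rows, a.length = N)
    (hcols : cols = (List.range N).map fun q => Ls.map (jacZ V q))
    (hW : W = Ls.map fun L => 2 * absSum L) (hQ : Q = Ls.map (quadZ V))
    (SA D R K0 K1 K2 : ℕ) (hSA : 0 < SA) (hD : 0 < D) (hR : 0 < R)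
    (hchk : rowsOK (rowOK ((SA : ℤ) * D) cols W Q K0 K1 K2) 0 rows = true)
    (hfin1 : 2 * (K0 * R + K1 * D) ≤ SA * D * R)
    (hfin2 : 2 * (K2 * R) ≤ SA * D ^ 2) :
    ∃ v : ℕ → ℝ, (∀ q, N ≤ q → v q = (V.getD q 0 : ℝ) / D) ∧
      (∀ q, |v q - (V.getD q 0 : ℝ) / D| ≤ 1 / R) ∧ ∀ L ∈ Ls, quad L v = 0 := by
  have hSA' : (0 : ℝ) < SA := by exact_mod_cast hSA
  have hD' : (0 : ℝ) < D := by exact_mod_cast hD
  have hR' : (0 : ℝ) < R := by exact_mod_cast hR
  set v0 : ℕ → ℝ := fun i => (V.getD i 0 : ℝ) / D with hv0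
  have hget : ∀ p : Fin N, (rows.getD p []).length = N := by
    intro p
    have hp : (p : ℕ) < rows.length := by rw [hrows]; exact p.2
    rw [List.getD_eq_getElem _ _ hp]
    exact hrow _ (List.getElem_mem hp)
  have hcol : ∀ q : Fin N, cols.getD q [] = Ls.map (jacZ V q) := by
    intro q
    have hq : (q : ℕ) < cols.length := by rw [hcols]; simp
    rw [List.getD_eq_getElem _ _ hq]
    simp [hcols]
  have hmapget : ∀ (f : List Tm → ℤ) (e : Fin N), (Ls.map f).getD e 0 = f (Ls.getD e []) := by
    intro f e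
    have he : (e : ℕ) < Ls.length := by rw [hLs]; exact e.2
    have he' : (e : ℕ) < (Ls.map f).length := by simpa using he
    rw [List.getD_eq_getElem _ _ he', List.getD_eq_getElem _ _ he, List.getElem_map]
  have hmapgetN : ∀ (f : List Tm → ℕ) (e : Fin N), (Ls.map f).getD e 0 = f (Ls.getD e []) := by
    intro f e
    have he : (e : ℕ) < Ls.length := by rw [hLs]; exact e.2
    have he' : (e : ℕ) < (Ls.map f).length := by simpa using he
    rw [List.getD_eq_getElem _ _ he', List.getD_eq_getElem _ _ he, List.getElem_map]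
  have hspec : ∀ p : Fin N, rowOK ((SA : ℤ) * D) cols W Q K0 K1 K2 p (rows.getD p []) = true := by
    intro p
    have := rowsOK_spec _ 0 rows hchk p (by rw [hrows]; exact p.2)
    simpa using this
  have hspec' : ∀ p : Fin N, rowErr ((SA : ℤ) * D) p (rows.getD p []) 0 cols ≤ K0 ∧
      dotAbs (rows.getD p []) W ≤ K1 ∧ (dot (rows.getD p []) Q).natAbs ≤ K2 := by
    intro p
    have := hspec p
    simp only [rowOK, Bool.and_eq_true, Nat.ble_eq] at this
    exact ⟨this.1.1, this.1.2, this.2⟩
  obtain ⟨v, hv1, hv2, hv3⟩ := exists_zero N M hNM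
    (fun p e => ((rows.getD p []).getD e 0 : ℝ) / SA) (fun e => Ls.getD e [])
    (by
      intro e
      have he : (e : ℕ) < Ls.length := by rw [hLs]; exact e.2
      rw [List.getD_eq_getElem _ _ he]
      exact hM _ (List.getElem_mem he))
    v0 (1 / R) (K0 / (SA * D)) (K1 / SA) (K2 / (SA * D ^ 2)) (by positivity)
    (by
      intro p
      have h1 := (hspec' p).1
      rw [rowErr_eq _ _ _ N 0 cols (by rw [hcols]; simp)] at h1
      have h2 : (∑ q : Fin N, (((if (p : ℕ) = 0 + q then ((SA : ℤ) * D) else 0)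
          - dot (rows.getD p []) (cols.getD q [])).natAbs : ℝ)) ≤ K0 := by exact_mod_cast h1
      rw [le_div_iff₀ (by positivity), Finset.sum_mul]
      refine le_trans (le_of_eq ?_) h2
      apply Finset.sum_congr rfl
      intro q _
      rw [Nat.cast_natAbs, hcol, dot_eq N _ _ (hget p) (by simp [hLs])]
      have hpos : (0 : ℝ) < SA * D := by positivity
      rw [← abs_of_pos hpos, ← abs_mul, Int.cast_abs]
      congr 1
      push_cast
      rw [sub_mul, Finset.sum_mul]
      congr 1
      · by_cases h : p = q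
        · subst h; simp
        · have : ¬ ((p : ℕ) = 0 + (q : ℕ)) := by
            intro h'; apply h; ext; omega
          simp [h]
          intro h'; exact absurd (Fin.ext h') h
      · apply Finset.sum_congr rfl
        intro e _
        rw [hmapget, hv0, jac_cast]
        field_simp)
    (by
      intro p
      have h1 := (hspec' p).2.1
      rw [dotAbs_eq N _ _ (hget p) (by rw [hW]; simp [hLs])] at h1
      have h2 : (∑ e : Fin N, ((((rows.getD p []).getD e 0).natAbs : ℝ) * (W.getD e 0 : ℝ)))
          ≤ K1 := by exact_mod_cast h1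
      rw [le_div_iff₀ hSA', Finset.sum_mul]
      refine le_trans (le_of_eq ?_) h2
      apply Finset.sum_congr rfl
      intro e _
      rw [Nat.cast_natAbs, hW, hmapgetN, abs_div, abs_of_pos hSA', Int.cast_abs]
      push_cast
      field_simp)
    (by
      intro p
      have h1 := (hspec' p).2.2
      have h2 : (((dot (rows.getD p []) Q).natAbs : ℕ) : ℝ) ≤ K2 := by exact_mod_cast h1
      rw [le_div_iff₀ (by positivity)]
      refine le_trans (le_of_eq ?_) h2
      rw [Nat.cast_natAbs, dot_eq N _ _ (hget p) (by rw [hQ]; simp [hLs]), Int.cast_abs]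
      have hpos : (0 : ℝ) < SA * D ^ 2 := by positivity
      rw [← abs_of_pos hpos, ← abs_mul]
      congr 1
      push_cast
      rw [Finset.sum_mul]
      apply Finset.sum_congr rfl
      intro e _
      rw [hQ, hmapget, hv0, quad_cast]
      field_simp)
    (by
      have h : (2 : ℝ) * (K0 * R + K1 * D) ≤ SA * D * R := by exact_mod_cast hfin1
      have e1 : (K0 : ℝ) / (SA * D) + K1 / SA * (1 / R) = (K0 * R + K1 * D) / (SA * D * R) := by
        field_simp
      rw [e1, div_le_iff₀ (by positivity)]
      linarith)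
    (by
      have h : (2 : ℝ) * (K2 * R) ≤ SA * D ^ 2 := by exact_mod_cast hfin2
      rw [div_le_iff₀ (by positivity)]
      have : (1 : ℝ) / R / 2 * (SA * D ^ 2) = (SA * D ^ 2) / (2 * R) := by field_simp
      rw [this, le_div_iff₀ (by positivity)]
      linarith)
  refine ⟨v, hv1, hv2, ?_⟩
  intro L hL
  obtain ⟨i, hi, rfl⟩ := List.getElem_of_mem hL
  have h := hv3 ⟨i, by omega⟩
  simp only [List.getD_eq_getElem _ _ hi] at h
  exact h

end Pool.Agent.V1184.PI
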