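import Pool.Agent.V1184.PI.KL

/-!
From amplitudes to permutation-invariant codes.
-/

namespace Pool.Agent.V1184.PI

open Matrix

lemma wt_le {n : ℕ} (x : Fin n → Bool) : wt x ≤ n := by
  unfold wt
  calc ∑ i, (x i).toNat ≤ ∑ _i : Fin n, 1 := Finset.sum_le_sum fun i _ => Bool.toNat_le _
    _ = n := by simp

lemma piState_eq (n : ℕ) (a : ℕ → ℂ) :
    piState n (fun j => ((Real.sqrt (n.choose j) : ℝ) : ℂ) * a j) = fun x => a (wt x) := by
  funext x
  have hx : wt x < n + 1 := Nat.lt_succ_of_le (wt_le x)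
  unfold piState
  rw [Finset.sum_apply, Finset.sum_eq_single (⟨wt x, hx⟩ : Fin (n + 1))]
  · simp only [Pi.smul_apply, smul_eq_mul, dicke, if_true]
    have : (Real.sqrt (n.choose (wt x)) : ℝ) ≠ 0 := by
      rw [Real.sqrt_ne_zero']
      exact_mod_cast Nat.choose_pos (wt_le x)
    have h2 : ((Real.sqrt (n.choose (wt x)) : ℝ) : ℂ) ≠ 0 := by exact_mod_cast this
    push_cast
    field_simp
  · intro j _ hj
    have : ¬ wt x = (j : ℕ) := by
      intro h; apply hj; ext; exact h.symm
    simp [dicke, this]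
  · intro h; exact absurd (Finset.mem_univ _) h

lemma sigma_zero : sigma 0 = 1 := by
  funext b c
  simp [sigma, Matrix.one_apply]

lemma pauli_mul {n : ℕ} (E F : Fin n → Fin 4) (x y : Fin n → Bool) :
    ((pauli E)ᴴ * pauli F) x y = ∏ i, ((sigma (E i))ᴴ * sigma (F i)) (x i) (y i) := by
  simp only [Matrix.mul_apply, Matrix.conjTranspose_apply]
  rw [Finset.prod_univ_sum, Fintype.piFinset_univ]
  apply Finset.sum_congr rfl
  intro z _
  simp only [pauli, star_prod]
  rw [Finset.prod_mul_distrib]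

lemma inner_pauli {n : ℕ} (E F : Fin n → Fin 4) (a b : ℕ → ℂ) :
    star (fun x : Fin n → Bool => a (wt x)) ⬝ᵥ
        (((pauli E)ᴴ * pauli F) *ᵥ (fun x : Fin n → Bool => b (wt x)))
      = form n (fun i => (sigma (E i))ᴴ * sigma (F i)) a b := by
  unfold form dotProduct mulVec dotProduct
  apply Finset.sum_congr rfl
  intro x _
  rw [Finset.mul_sum]
  apply Finset.sum_congr rfl
  intro y _
  have h := pauli_mul E F x y
  simp only [Pi.star_apply]
  rw [← h]
  ring

lemma form_one (n : ℕ) (a b : ℕ → ℂ) :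
    form n (fun _ => 1) a b = star (fun x : Fin n → Bool => a (wt x)) ⬝ᵥ
      (fun x : Fin n → Bool => b (wt x)) := by
  unfold form dotProduct
  apply Finset.sum_congr rfl
  intro x _
  rw [Finset.sum_eq_single x]
  · simp
  · intro y _ hy
    have : ∃ i, x i ≠ y i := by
      by_contra h
      push Not at h
      exact hy (funext fun i => (h i).symm)
    obtain ⟨i, hi⟩ := this
    rw [Finset.prod_eq_zero (Finset.mem_univ i)]
    · simp
    · exact Matrix.one_apply_ne hi
  · intro h; exact absurd (Finset.mem_univ _) h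

lemma mom_star (m p q : ℕ) (a b : ℕ → ℂ) : star (mom m p q a b) = mom m q p b a := by
  unfold mom
  rw [star_sum]
  apply Finset.sum_congr rfl
  intro k _
  rw [star_mul', star_mul', star_star]
  simp
  left
  ring

lemma eval_zero {n d : ℕ} {f : (ℕ → ℂ) → (ℕ → ℂ) → ℂ} (hf : f ∈ spanMom n d) (a b : ℕ → ℂ)
    (h : ∀ p q, p ≤ d → q ≤ d → mom (n - d) p q a b = 0) : f a b = 0 := by
  unfold spanMom at hf
  induction hf using Submodule.span_induction with
  | mem x hx =>
    obtain ⟨p, q, hp, hq, rfl⟩ := hx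
    exact h p q hp hq
  | zero => rfl
  | add x y _ _ hx hy => simp [hx, hy]
  | smul r x _ hx => simp [hx]

lemma eval_eq {n d : ℕ} {f : (ℕ → ℂ) → (ℕ → ℂ) → ℂ} (hf : f ∈ spanMom n d) (a b : ℕ → ℂ)
    (h : ∀ p q, p ≤ d → q ≤ d → mom (n - d) p q a a = mom (n - d) p q b b) :
    f a a = f b b := by
  unfold spanMom at hf
  induction hf using Submodule.span_induction with
  | mem x hx =>
    obtain ⟨p, q, hp, hq, rfl⟩ := hx
    exact h p q hp hq
  | zero => rfl
  | add x y _ _ hx hy => simp [hx, hy]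
  | smul r x _ hx => simp [hx]

lemma mom_smul (m p q : ℕ) (s : ℝ) (a b : ℕ → ℂ) :
    mom m p q (fun k => (s : ℂ) * a k) (fun k => (s : ℂ) * b k)
      = (s : ℂ) ^ 2 * mom m p q a b := by
  unfold mom
  rw [Finset.mul_sum]
  apply Finset.sum_congr rfl
  intro k _
  simp only [star_mul', Complex.star_def, Complex.conj_ofReal]
  ring

lemma corrects_of (n t : ℕ) (ht : 2 * t ≤ n) (a b : ℕ → ℂ)
    (h1 : ∀ p q, p ≤ 2 * t → q ≤ 2 * t → mom (n - 2 * t) p q a b = 0)
    (h3 : ∀ p q, p ≤ 2 * t → q ≤ 2 * t →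
      mom (n - 2 * t) p q a a = mom (n - 2 * t) p q b b)
    (h4 : form n (fun _ => 1) a a = 1) : HasCode n t := by
  have h2 : ∀ p q, p ≤ 2 * t → q ≤ 2 * t → mom (n - 2 * t) p q b a = 0 := by
    intro p q hp hq
    rw [← mom_star, h1 q p hq hp, star_zero]
  have main : ∀ T : Fin n → Matrix Bool Bool ℂ,
      (Finset.univ.filter fun i => T i ≠ 1).card ≤ 2 * t →
      form n T a b = 0 ∧ form n T b a = 0 ∧ form n T a a = form n T b b := by
    intro T hT
    have hmem := form_mem n (2 * t) ht T hT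
    exact ⟨eval_zero hmem a b h1, eval_zero hmem b a h2, eval_eq hmem a b h3⟩
  refine ⟨fun j => ((Real.sqrt (n.choose j) : ℝ) : ℂ) * a j,
    fun j => ((Real.sqrt (n.choose j) : ℝ) : ℂ) * b j, ?_, ?_⟩
  · have := main (fun _ => 1) (by simp)
    intro i k
    fin_cases i <;> fin_cases k <;>
      simp only [codeword, piState_eq, Fin.zero_eta, Fin.mk_one, Fin.isValue,
        Matrix.cons_val_zero, Matrix.cons_val_one] <;> rw [← form_one]
    · rw [h4]; simp
    · rw [this.1]; simp
    · rw [this.2.1]; simp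
    · rw [← this.2.2, h4]; simp
  · intro E F hE hF
    set T : Fin n → Matrix Bool Bool ℂ := fun i => (sigma (E i))ᴴ * sigma (F i) with hT
    have hcard : (Finset.univ.filter fun i => T i ≠ 1).card ≤ 2 * t := by
      have hsub : (Finset.univ.filter fun i => T i ≠ 1)
          ⊆ (Finset.univ.filter fun i => E i ≠ 0) ∪ (Finset.univ.filter fun i => F i ≠ 0) := by
        intro i hi
        simp only [Finset.mem_filter, Finset.mem_univ, true_and, Finset.mem_union] at hi ⊢
        by_contra hcon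
        push Not at hcon
        apply hi
        simp only [hT, hcon.1, hcon.2, sigma_zero, Matrix.conjTranspose_one, mul_one]
      refine (Finset.card_le_card hsub).trans ((Finset.card_union_le _ _).trans ?_)
      unfold weight at hE hF
      omega
    have := main T hcard
    refine ⟨form n T a a, ?_⟩
    intro i k
    fin_cases i <;> fin_cases k <;>
      simp only [codeword, piState_eq, Fin.zero_eta, Fin.mk_one, Fin.isValue,
        Matrix.cons_val_zero, Matrix.cons_val_one] <;> rw [inner_pauli]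
    · simp [hT]
    · rw [← hT, this.1]; simp
    · rw [← hT, this.2.1]; simp
    · rw [← hT, ← this.2.2]; simp

theorem hasCode_of (n t : ℕ) (ht : 2 * t ≤ n) (a b : ℕ → ℂ)
    (h1 : ∀ p q, p ≤ 2 * t → q ≤ 2 * t → mom (n - 2 * t) p q a b = 0)
    (h3 : ∀ p q, p ≤ 2 * t → q ≤ 2 * t →
      mom (n - 2 * t) p q a a = mom (n - 2 * t) p q b b)
    (h4 : ∃ x : Fin n → Bool, a (wt x) ≠ 0) : HasCode n t := by
  set N : ℝ := ∑ x : Fin n → Bool, ‖a (wt x)‖ ^ 2 with hN
  have hNpos : 0 < N := by
    obtain ⟨x, hx⟩ := h4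
    apply Finset.sum_pos' (fun _ _ => by positivity)
    exact ⟨x, Finset.mem_univ _, by positivity⟩
  have hform : ∀ s : ℝ, form n (fun _ => 1) (fun k => (s : ℂ) * a k) (fun k => (s : ℂ) * a k)
      = ((s ^ 2 * N : ℝ) : ℂ) := by
    intro s
    rw [form_one]
    unfold dotProduct
    rw [hN, Finset.mul_sum]
    push_cast
    apply Finset.sum_congr rfl
    intro x _
    simp only [Pi.star_apply, star_mul', Complex.star_def, Complex.conj_ofReal]
    have : (starRingEnd ℂ) (a (wt x)) * a (wt x) = ((‖a (wt x)‖ : ℝ) : ℂ) ^ 2 := by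
      rw [← Complex.normSq_eq_conj_mul_self, Complex.normSq_eq_norm_sq]
      push_cast
      ring
    linear_combination (s : ℂ) ^ 2 * this
  set s : ℝ := 1 / Real.sqrt N with hs
  apply corrects_of n t ht (fun k => (s : ℂ) * a k) (fun k => (s : ℂ) * b k)
  · intro p q hp hq
    rw [mom_smul, h1 p q hp hq, mul_zero]
  · intro p q hp hq
    rw [mom_smul, mom_smul, h3 p q hp hq]
  · rw [hform]
    have : s ^ 2 * N = 1 := by
      rw [hs, div_pow, one_pow, Real.sq_sqrt hNpos.le]
      field_simp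
    rw [this]
    simp

end Pool.Agent.V1184.PI
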