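import Mathlib

/-!
A verified Newton type existence theorem for square systems of real quadratic forms, whose
hypotheses are inequalities between integers.
-/

namespace Pool.Agent.V1184.PI

/-- A monomial `c * w a * w b`, coded as `(c, a, b)`. -/
abbrev Tm := ℤ × ℕ × ℕ

/-- The value of a quadratic form at `w`. -/
noncomputable def quad : List Tm → (ℕ → ℝ) → ℝ
  | [], _ => 0
  | t :: L, w => (t.1 : ℝ) * w t.2.1 * w t.2.2 + quad L w

/-- The partial derivative of a quadratic form in direction `q` at `w`. -/
noncomputable def jac : List Tm → (ℕ → ℝ) → ℕ → ℝ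
  | [], _, _ => 0
  | t :: L, w, q => (if t.2.1 = q then (t.1 : ℝ) * w t.2.2 else 0)
      + (if t.2.2 = q then (t.1 : ℝ) * w t.2.1 else 0) + jac L w q

/-- The sum of the absolute values of the coefficients. -/
def absSum : List Tm → ℕ
  | [] => 0
  | t :: L => t.1.natAbs + absSum L

lemma quad_sub (M : ℕ) (L : List Tm) (hL : ∀ t ∈ L, t.2.1 < M ∧ t.2.2 < M) (v w : ℕ → ℝ) :
    quad L v - quad L w
      = ∑ q ∈ Finset.range M, jac L (fun i => (v i + w i) / 2) q * (v q - w q) := by
  induction L with
  | nil => simp [quad, jac]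
  | cons t L ih =>
    have ht := hL t (by simp)
    have ih' := ih (fun s hs => hL s (by simp [hs]))
    simp only [quad, jac, add_mul, Finset.sum_add_distrib, ite_mul, zero_mul]
    rw [← ih', Finset.sum_ite_eq, Finset.sum_ite_eq]
    simp only [Finset.mem_range, ht.1, ht.2, if_true]
    ring

lemma jac_lip (N : ℕ) (L : List Tm) (v w : ℕ → ℝ) (r : ℝ) (h : ∀ i, |v i - w i| ≤ r) :
    ∑ q ∈ Finset.range N, |jac L v q - jac L w q| ≤ 2 * (absSum L : ℝ) * r := by
  have hr : 0 ≤ r := (abs_nonneg _).trans (h 0)
  induction L with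
  | nil => simp [jac, absSum]
  | cons t L ih =>
    have key : ∀ (a b : ℕ), ∑ q ∈ Finset.range N,
        |(if a = q then (t.1 : ℝ) * v b else 0) - (if a = q then (t.1 : ℝ) * w b else 0)|
          ≤ |(t.1 : ℝ)| * r := by
      intro a b
      have : ∀ q ∈ Finset.range N,
          |(if a = q then (t.1 : ℝ) * v b else 0) - (if a = q then (t.1 : ℝ) * w b else 0)|
            = if a = q then |(t.1 : ℝ) * (v b - w b)| else 0 := by
        intro q _
        by_cases hq : a = q
        · simp [hq, mul_sub]
        · simp [hq]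
      rw [Finset.sum_congr rfl this, Finset.sum_ite_eq]
      have h1 : |(t.1 : ℝ) * (v b - w b)| ≤ |(t.1 : ℝ)| * r := by
        rw [abs_mul]
        exact mul_le_mul_of_nonneg_left (h b) (abs_nonneg _)
      split_ifs
      · exact h1
      · positivity
    have e1 := key t.2.1 t.2.2
    have e2 := key t.2.2 t.2.1
    have hcast : ((absSum (t :: L) : ℕ) : ℝ) = |(t.1 : ℝ)| + (absSum L : ℝ) := by
      simp [absSum, Nat.cast_natAbs]
    calc ∑ q ∈ Finset.range N, |jac (t :: L) v q - jac (t :: L) w q|
        ≤ ∑ q ∈ Finset.range N,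
          (|(if t.2.1 = q then (t.1 : ℝ) * v t.2.2 else 0)
              - (if t.2.1 = q then (t.1 : ℝ) * w t.2.2 else 0)|
          + |(if t.2.2 = q then (t.1 : ℝ) * v t.2.1 else 0)
              - (if t.2.2 = q then (t.1 : ℝ) * w t.2.1 else 0)|
          + |jac L v q - jac L w q|) := by
          apply Finset.sum_le_sum
          intro q _
          simp only [jac]
          have : ∀ a b c a' b' c' : ℝ, |a + b + c - (a' + b' + c')|
              ≤ |a - a'| + |b - b'| + |c - c'| := by
            intro a b c a' b' c'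
            have : a + b + c - (a' + b' + c') = (a - a') + (b - b') + (c - c') := by ring
            rw [this]
            exact (abs_add_le _ _).trans (by gcongr; exact abs_add_le _ _)
          exact this _ _ _ _ _ _
      _ ≤ |(t.1 : ℝ)| * r + |(t.1 : ℝ)| * r + 2 * (absSum L : ℝ) * r := by
          rw [Finset.sum_add_distrib, Finset.sum_add_distrib]
          gcongr
      _ = 2 * ((absSum (t :: L) : ℕ) : ℝ) * r := by rw [hcast]; ring

/-- Extend a vector on `Fin N` by the values of `v0`. -/
noncomputable def ext (N : ℕ) (v0 : ℕ → ℝ) (v : Fin N → ℝ) : ℕ → ℝ :=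
  fun i => if h : i < N then v ⟨i, h⟩ else v0 i

lemma exists_zero (N M : ℕ) (hNM : N ≤ M) (A : Fin N → Fin N → ℝ) (L : Fin N → List Tm)
    (hM : ∀ e, ∀ t ∈ L e, t.2.1 < M ∧ t.2.2 < M) (v0 : ℕ → ℝ) (r κ K ε : ℝ) (hr : 0 < r)
    (h1 : ∀ p : Fin N, ∑ q : Fin N,
      |(if p = q then (1 : ℝ) else 0) - ∑ e, A p e * jac (L e) v0 q| ≤ κ)
    (h2 : ∀ p : Fin N, ∑ e, |A p e| * (2 * (absSum (L e) : ℝ)) ≤ K)
    (h3 : ∀ p : Fin N, |∑ e, A p e * quad (L e) v0| ≤ ε)
    (h4 : κ + K * r ≤ 1 / 2) (h5 : ε ≤ r / 2) :
    ∃ v : ℕ → ℝ, (∀ q, N ≤ q → v q = v0 q) ∧ (∀ q, |v q - v0 q| ≤ r) ∧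
      ∀ e, quad (L e) v = 0 := by
  classical
  set F : (Fin N → ℝ) → Fin N → ℝ := fun v e => quad (L e) (ext N v0 v) with hF
  set T : (Fin N → ℝ) → Fin N → ℝ := fun v p => v p - ∑ e, A p e * F v e with hT
  set c : Fin N → ℝ := fun p => v0 p with hc
  set B : Set (Fin N → ℝ) := Metric.closedBall c r with hB
  have hext0 : ext N v0 c = v0 := by
    funext i; simp [ext, hc]
  have memB : ∀ v, v ∈ B ↔ ∀ p, |v p - v0 p| ≤ r := by
    intro v
    rw [hB, Metric.mem_closedBall, dist_pi_le_iff hr.le]
    simp [hc, Real.dist_eq]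
  have extB : ∀ v ∈ B, ∀ i, |ext N v0 v i - v0 i| ≤ r := by
    intro v hv i
    by_cases hi : i < N
    · simp only [ext, hi, dif_pos]
      exact (memB v).1 hv ⟨i, hi⟩
    · simp [ext, hi, hr.le]
  -- the main difference formula
  have sumFin : ∀ f : ℕ → ℝ, (∀ q, N ≤ q → q < M → f q = 0) →
      ∑ q ∈ Finset.range M, f q = ∑ q : Fin N, f q := by
    intro f hf
    rw [← Finset.sum_range (fun q => f q)]
    symm
    apply Finset.sum_subset
    · intro x hx; simp only [Finset.mem_range] at *; omega
    · intro x hx hx'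
      simp only [Finset.mem_range] at *
      exact hf x (by omega) hx
  have diff : ∀ v w e, F v e - F w e
      = ∑ q : Fin N, jac (L e) (fun i => (ext N v0 v i + ext N v0 w i) / 2) q * (v q - w q) := by
    intro v w e
    simp only [hF]
    rw [quad_sub M (L e) (hM e), sumFin]
    · apply Finset.sum_congr rfl
      intro q _
      simp [ext]
    · intro q hq _
      have : ¬ q < N := by omega
      simp [ext, this]
  have rowbd : ∀ m : ℕ → ℝ, (∀ i, |m i - v0 i| ≤ r) → ∀ p : Fin N,
      ∑ q : Fin N, |(if p = q then (1 : ℝ) else 0) - ∑ e, A p e * jac (L e) m q| ≤ 1 / 2 := by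
    intro m hm p
    have step : ∀ q : Fin N,
        |(if p = q then (1 : ℝ) else 0) - ∑ e, A p e * jac (L e) m q|
        ≤ |(if p = q then (1 : ℝ) else 0) - ∑ e, A p e * jac (L e) v0 q|
          + ∑ e, |A p e| * |jac (L e) m q - jac (L e) v0 q| := by
      intro q
      have : (if p = q then (1 : ℝ) else 0) - ∑ e, A p e * jac (L e) m q
          = ((if p = q then (1 : ℝ) else 0) - ∑ e, A p e * jac (L e) v0 q)
            - ∑ e, A p e * (jac (L e) m q - jac (L e) v0 q) := by
        simp only [mul_sub, Finset.sum_sub_distrib]; ring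
      rw [this]
      refine (abs_sub _ _).trans ?_
      gcongr
      refine (Finset.abs_sum_le_sum_abs _ _).trans ?_
      simp [abs_mul]
    calc ∑ q : Fin N, |(if p = q then (1 : ℝ) else 0) - ∑ e, A p e * jac (L e) m q|
        ≤ ∑ q : Fin N, (|(if p = q then (1 : ℝ) else 0) - ∑ e, A p e * jac (L e) v0 q|
          + ∑ e, |A p e| * |jac (L e) m q - jac (L e) v0 q|) :=
          Finset.sum_le_sum fun q _ => step q
      _ = ∑ q : Fin N, |(if p = q then (1 : ℝ) else 0) - ∑ e, A p e * jac (L e) v0 q|
          + ∑ e, |A p e| * ∑ q : Fin N, |jac (L e) m q - jac (L e) v0 q| := by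
          rw [Finset.sum_add_distrib]
          congr 1
          rw [Finset.sum_comm]
          simp [Finset.mul_sum]
      _ ≤ κ + ∑ e, |A p e| * (2 * (absSum (L e) : ℝ) * r) := by
          gcongr with e
          · exact h1 p
          · rw [← Finset.sum_range (fun q => |jac (L e) m q - jac (L e) v0 q|)]
            exact jac_lip N (L e) m v0 r hm
      _ = κ + (∑ e, |A p e| * (2 * (absSum (L e) : ℝ))) * r := by
          rw [Finset.sum_mul]; simp only [mul_assoc]
      _ ≤ κ + K * r := by gcongr; exact h2 p
      _ ≤ 1 / 2 := h4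
  -- contraction estimate
  have contr : ∀ v ∈ B, ∀ w ∈ B, dist (T v) (T w) ≤ (1 / 2) * dist v w := by
    intro v hv w hw
    rw [dist_pi_le_iff (by positivity)]
    intro p
    set m : ℕ → ℝ := fun i => (ext N v0 v i + ext N v0 w i) / 2 with hm
    have hmB : ∀ i, |m i - v0 i| ≤ r := by
      intro i
      have a := extB v hv i
      have b := extB w hw i
      rw [abs_le] at a b ⊢
      constructor <;> simp only [hm] <;> linarith [a.1, a.2, b.1, b.2]
    have e1 : T v p - T w p
        = ∑ q : Fin N, ((if p = q then (1 : ℝ) else 0) - ∑ e, A p e * jac (L e) m q)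
            * (v q - w q) := by
      have : ∑ e, A p e * F v e - ∑ e, A p e * F w e
          = ∑ q : Fin N, (∑ e, A p e * jac (L e) m q) * (v q - w q) := by
        rw [← Finset.sum_sub_distrib]
        simp only [← mul_sub, diff, Finset.mul_sum, Finset.sum_mul]
        rw [Finset.sum_comm]
        apply Finset.sum_congr rfl
        intro q _
        apply Finset.sum_congr rfl
        intro e _
        simp only [hm]; ring
      simp only [hT, sub_mul, ite_mul, one_mul, zero_mul, Finset.sum_sub_distrib,
        Finset.sum_ite_eq, Finset.mem_univ, if_true]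
      linarith [this]
    rw [Real.dist_eq, e1]
    calc |∑ q : Fin N, ((if p = q then (1 : ℝ) else 0) - ∑ e, A p e * jac (L e) m q)
            * (v q - w q)|
        ≤ ∑ q : Fin N, |(if p = q then (1 : ℝ) else 0) - ∑ e, A p e * jac (L e) m q|
            * dist v w := by
          refine (Finset.abs_sum_le_sum_abs _ _).trans ?_
          apply Finset.sum_le_sum
          intro q _
          rw [abs_mul]
          gcongr
          rw [← Real.dist_eq]
          exact dist_le_pi_dist v w q
      _ = (∑ q : Fin N, |(if p = q then (1 : ℝ) else 0) - ∑ e, A p e * jac (L e) m q|)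
            * dist v w := by rw [Finset.sum_mul]
      _ ≤ (1 / 2) * dist v w := by
          gcongr
          exact rowbd m hmB p
  have hcB : c ∈ B := Metric.mem_closedBall_self hr.le
  have hTc : dist (T c) c ≤ r / 2 := by
    rw [dist_pi_le_iff (by positivity)]
    intro p
    rw [Real.dist_eq]
    have : T c p - c p = - ∑ e, A p e * quad (L e) v0 := by
      simp only [hT, hF, hext0]; ring
    rw [this, abs_neg]
    exact (h3 p).trans h5
  have maps : Set.MapsTo T B B := by
    intro v hv
    rw [hB, Metric.mem_closedBall]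
    have hv' : dist v c ≤ r := hv
    calc dist (T v) c ≤ dist (T v) (T c) + dist (T c) c := dist_triangle _ _ _
      _ ≤ (1 / 2) * dist v c + r / 2 := add_le_add (contr v hv c hcB) hTc
      _ ≤ (1 / 2) * r + r / 2 := by gcongr
      _ = r := by ring
  -- fixed point
  have hcomplete : IsComplete B := Metric.isClosed_closedBall.isComplete
  have hcw : ContractingWith (1 / 2 : NNReal) (Set.MapsTo.restrict T B B maps) := by
    refine ⟨by rw [← NNReal.coe_lt_coe]; norm_num, ?_⟩
    apply LipschitzWith.of_dist_le_mul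
    intro x y
    have := contr x x.2 y y.2
    have e2 : ((1 / 2 : NNReal) : ℝ) = 1 / 2 := by norm_num
    rw [e2]
    exact this
  obtain ⟨v, hvB, hfix, -⟩ := hcw.exists_fixedPoint' hcomplete maps hcB (edist_ne_top _ _)
  have hfix' : T v = v := hfix
  have hAF : ∀ p, ∑ e, A p e * F v e = 0 := by
    intro p
    have := congrFun hfix' p
    simp only [hT] at this
    linarith
  -- invertibility of `A`
  have hAinj : ∀ y : Fin N → ℝ, (∀ p, ∑ e, A p e * y e = 0) → y = 0 := by
    have hJinj : Function.Injective
        (Matrix.mulVecLin (Matrix.of fun (p q : Fin N) => ∑ e, A p e * jac (L e) v0 q)) := by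
      rw [injective_iff_map_eq_zero]
      intro z hz
      have hz' : ∀ p : Fin N, ∑ q : Fin N, (∑ e, A p e * jac (L e) v0 q) * z q = 0 := by
        intro p
        have := congrFun hz p
        simpa [Matrix.mulVec, dotProduct] using this
      have hn : ‖z‖ ≤ (1 / 2) * ‖z‖ := by
        rw [pi_norm_le_iff_of_nonneg (by positivity)]
        intro p
        have e1 : z p = ∑ q : Fin N,
            ((if p = q then (1 : ℝ) else 0) - ∑ e, A p e * jac (L e) v0 q) * z q := by
          simp only [sub_mul, ite_mul, one_mul, zero_mul, Finset.sum_sub_distrib,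
            Finset.sum_ite_eq, Finset.mem_univ, if_true, hz' p, sub_zero]
        rw [e1, Real.norm_eq_abs]
        calc |∑ q : Fin N, ((if p = q then (1 : ℝ) else 0)
              - ∑ e, A p e * jac (L e) v0 q) * z q|
            ≤ ∑ q : Fin N, |(if p = q then (1 : ℝ) else 0)
              - ∑ e, A p e * jac (L e) v0 q| * ‖z‖ := by
              refine (Finset.abs_sum_le_sum_abs _ _).trans ?_
              apply Finset.sum_le_sum
              intro q _
              rw [abs_mul]
              gcongr
              rw [← Real.norm_eq_abs]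
              exact norm_le_pi_norm z q
          _ = (∑ q : Fin N, |(if p = q then (1 : ℝ) else 0)
              - ∑ e, A p e * jac (L e) v0 q|) * ‖z‖ := by rw [Finset.sum_mul]
          _ ≤ (1 / 2) * ‖z‖ := by
              gcongr
              exact rowbd v0 (by intro i; simp [hr.le]) p
      have : ‖z‖ ≤ 0 := by linarith
      exact norm_le_zero_iff.1 this
    have hsurj := LinearMap.injective_iff_surjective.1 hJinj
    have hAsurj : Function.Surjective (Matrix.mulVecLin (Matrix.of A)) := by
      intro y
      obtain ⟨z, hz⟩ := hsurj y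
      refine ⟨fun e => ∑ q : Fin N, jac (L e) v0 q * z q, ?_⟩
      rw [← hz]
      funext p
      simp only [Matrix.mulVecLin_apply, Matrix.mulVec, dotProduct, Matrix.of_apply,
        Finset.mul_sum, Finset.sum_mul]
      rw [Finset.sum_comm]
      simp only [mul_assoc]
    have hAinj' := LinearMap.injective_iff_surjective.2 hAsurj
    intro y hy
    apply hAinj'
    rw [map_zero]
    funext p
    simpa [Matrix.mulVec, dotProduct] using hy p
  have hF0 : F v = 0 := hAinj _ hAF
  refine ⟨ext N v0 v, ?_, extB v hvB, ?_⟩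
  · intro q hq
    simp [ext, not_lt.2 hq]
  · intro e
    exact congrFun hF0 e

end Pool.Agent.V1184.PI
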