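import Mathlib

/-!
Permutation-invariant qubit codes: definitions.
-/

namespace Pool.Agent.V1184.PI

open Matrix

/-- The number of ones of a bit string. -/
def wt {n : ℕ} (x : Fin n → Bool) : ℕ := ∑ i, (x i).toNat

/-- The Dicke state `|D^n_j⟩`: the amplitude of `|x⟩` is `binom(n,j)^(-1/2)` if `x` has `j` ones,
and `0` otherwise. -/
noncomputable def dicke (n : ℕ) (j : Fin (n + 1)) : (Fin n → Bool) → ℂ :=
  fun x => if wt x = (j : ℕ) then ((1 / Real.sqrt (n.choose j) : ℝ) : ℂ) else 0

/-- The vector with coordinates `α` in the Dicke states. -/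
noncomputable def piState (n : ℕ) (α : Fin (n + 1) → ℂ) : (Fin n → Bool) → ℂ :=
  ∑ j, α j • dicke n j

/-- The Pauli matrices: `sigma 0 = 1`, `sigma 1 = X`, `sigma 2 = Y`, `sigma 3 = Z`, where `false`
is the index of `|0⟩` and `true` that of `|1⟩`. -/
noncomputable def sigma : Fin 4 → Matrix Bool Bool ℂ
  | 0 => fun b c => if b = c then 1 else 0
  | 1 => fun b c => if b = c then 0 else 1
  | 2 => fun b c => if b = c then 0 else (if b then Complex.I else -Complex.I)
  | 3 => fun b c => if b = c then (if b then -1 else 1) else 0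

/-- The `n`-qubit Pauli operator with factors `sigma (E i)`. -/
noncomputable def pauli {n : ℕ} (E : Fin n → Fin 4) :
    Matrix (Fin n → Bool) (Fin n → Bool) ℂ :=
  fun x y => ∏ i, sigma (E i) (x i) (y i)

/-- The weight of a Pauli operator: the number of qubits on which it is not the identity. -/
def weight {n : ℕ} (E : Fin n → Fin 4) : ℕ := (Finset.univ.filter fun i => E i ≠ 0).card

/-- The two codewords. -/
noncomputable def codeword (n : ℕ) (α β : Fin (n + 1) → ℂ) : Fin 2 → (Fin n → Bool) → ℂ :=
  ![piState n α, piState n β]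

/-- The permutation-invariant qubit code with codewords `∑ α_j D_j` and `∑ β_j D_j` corrects `t`
errors: the codewords are orthonormal and the Knill-Laflamme conditions hold for all Pauli
operators `E`, `F` of weight at most `t`. -/
def Corrects (n t : ℕ) (α β : Fin (n + 1) → ℂ) : Prop :=
  (∀ i k : Fin 2, star (codeword n α β i) ⬝ᵥ codeword n α β k = if i = k then 1 else 0) ∧
  ∀ E F : Fin n → Fin 4, weight E ≤ t → weight F ≤ t → ∃ l : ℂ, ∀ i k : Fin 2,
    star (codeword n α β i) ⬝ᵥ (((pauli E)ᴴ * pauli F) *ᵥ codeword n α β k)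
      = if i = k then l else 0

/-- Some permutation-invariant qubit code of block length `n` corrects `t` errors. -/
def HasCode (n t : ℕ) : Prop := ∃ α β : Fin (n + 1) → ℂ, Corrects n t α β

/-- The smallest block length of a permutation-invariant qubit code that corrects `t` errors. -/
noncomputable def nmin (t : ℕ) : ℕ := sInf {n | HasCode n t}

end Pool.Agent.V1184.PI
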