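import Pool.Agent.V1184.PI.Link

/-!
The code of block length 59 correcting four errors.
-/

namespace Pool.Agent.V1184.PI

set_option maxRecDepth 100000

lemma amp_zero (v : ℕ → ℝ) (j : ℕ) (h : j % 3 ≠ 0) : amp v j = 0 := by
  by_cases hj : j < 58
  · interval_cases j <;> first | rfl | exact absurd rfl h
  · unfold amp
    rw [List.getD_eq_default]
    have : (ampList v).length = 58 := rfl
    omega

lemma bmp_zero (v : ℕ → ℝ) (j : ℕ) (hj : j ≤ 59) (h : j % 3 ≠ 2) : bmp v j = 0 := by
  unfold bmp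
  rw [amp_zero v (59 - j) (by omega)]
  simp

lemma momM_mod (v : ℕ → ℝ) (p q : ℕ) (hq : q ≤ 8) (h : (p + 2) % 3 ≠ q % 3) :
    mom 51 p q (amp v) (bmp v) = 0 := by
  unfold mom
  apply Finset.sum_eq_zero
  intro k hk
  rw [Finset.mem_range] at hk
  by_cases h1 : (p + k) % 3 = 0
  · rw [bmp_zero v (q + k) (by omega) (by omega)]
    simp
  · rw [amp_zero v (p + k) h1]
    simp

lemma momD_mod (v : ℕ → ℝ) (p q : ℕ) (h : p % 3 ≠ q % 3) :
    mom 51 p q (amp v) (amp v) = 0 := by
  unfold mom
  apply Finset.sum_eq_zero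
  intro k hk
  by_cases h1 : (p + k) % 3 = 0
  · rw [amp_zero v (q + k) (by omega)]
    simp
  · rw [amp_zero v (p + k) h1]
    simp

lemma symM (v : ℕ → ℝ) (p q : ℕ) (hp : p ≤ 8) (hq : q ≤ 8) :
    mom 51 p q (amp v) (bmp v)
      = -(-1) ^ (p + q) * mom 51 (8 - q) (8 - p) (amp v) (bmp v) := by
  unfold mom bmp
  rw [← Finset.sum_range_reflect, Finset.mul_sum]
  apply Finset.sum_congr rfl
  intro k hk
  rw [Finset.mem_range] at hk
  rw [show 51 + 1 - 1 - k = 51 - k by omega, Nat.choose_symm (by omega),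
    show 59 - (q + (51 - k)) = 8 - q + k by omega, show p + (51 - k) = 59 - (8 - p + k) by omega]
  have hs : (-1 : ℂ) ^ (q + (51 - k)) = -(-1) ^ (p + q) * (-1) ^ (8 - p + k) := by
    have e1 : (-1 : ℂ) ^ (q + (51 - k)) = (-1) ^ (q + k + 1) := by
      rw [neg_one_pow_eq_pow_mod_two, neg_one_pow_eq_pow_mod_two (n := q + k + 1)]
      congr 1
      omega
    have e2 : -(-1 : ℂ) ^ (p + q) * (-1) ^ (8 - p + k) = (-1) ^ (q + k + 1) := by
      rw [neg_mul, ← pow_add, pow_succ, mul_neg_one]
      congr 1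
      rw [neg_one_pow_eq_pow_mod_two, neg_one_pow_eq_pow_mod_two (n := q + k)]
      congr 1
      omega
    rw [e1, e2]
  rw [hs]
  ring

lemma symB (v : ℕ → ℝ) (p q : ℕ) (hp : p ≤ 8) (hq : q ≤ 8) :
    mom 51 p q (bmp v) (bmp v)
      = (-1) ^ (p + q) * mom 51 (8 - q) (8 - p) (amp v) (amp v) := by
  unfold mom bmp
  rw [← Finset.sum_range_reflect, Finset.mul_sum]
  apply Finset.sum_congr rfl
  intro k hk
  rw [Finset.mem_range] at hk
  rw [show 51 + 1 - 1 - k = 51 - k by omega, Nat.choose_symm (by omega),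
    show 59 - (q + (51 - k)) = 8 - q + k by omega, show 59 - (p + (51 - k)) = 8 - p + k by omega]
  rw [star_mul', star_star, star_pow, star_neg, star_one]
  have hs : (-1 : ℂ) ^ (p + (51 - k)) * (-1) ^ (q + (51 - k)) = (-1) ^ (p + q) := by
    rw [← pow_add, neg_one_pow_eq_pow_mod_two, neg_one_pow_eq_pow_mod_two (n := p + q)]
    congr 1
    omega
  rw [← hs]
  ring

lemma allM (v : ℕ → ℝ) (hv : ∀ L ∈ dLs, quad L v = 0) (p q : ℕ) (hp : p ≤ 8) (hq : q ≤ 8) :
    mom 51 p q (amp v) (bmp v) = 0 := by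
  have e0_2 := eqM_0_2 v (hv dL12 (by simp [dLs])) (hv dL13 (by simp [dLs]))
  have e0_5 := eqM_0_5 v (hv dL18 (by simp [dLs])) (hv dL19 (by simp [dLs]))
  have e1_0 := eqM_1_0 v (hv dL22 (by simp [dLs])) (hv dL23 (by simp [dLs]))
  have e1_3 := eqM_1_3 v (hv dL14 (by simp [dLs])) (hv dL15 (by simp [dLs]))
  have e1_6 := eqM_1_6 v (hv dL20 (by simp [dLs])) (hv dL21 (by simp [dLs]))
  have e2_1 := eqM_2_1 v (hv dL24 (by simp [dLs])) (hv dL25 (by simp [dLs]))
  have e2_4 := eqM_2_4 v (hv dL16 (by simp [dLs])) (hv dL17 (by simp [dLs]))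
  have e3_2 := eqM_3_2 v (hv dL26 (by simp [dLs])) (hv dL27 (by simp [dLs]))
  have e4_0 := eqM_4_0 v (hv dL30 (by simp [dLs])) (hv dL31 (by simp [dLs]))
  have e4_3 := eqM_4_3 v (hv dL28 (by simp [dLs])) (hv dL29 (by simp [dLs]))
  have e5_1 := eqM_5_1 v (hv dL32 (by simp [dLs])) (hv dL33 (by simp [dLs]))
  have e7_0 := eqM_7_0 v (hv dL34 (by simp [dLs])) (hv dL35 (by simp [dLs]))
  by_cases hmod : (p + 2) % 3 = q % 3
  swap
  · exact momM_mod v p q hq hmod
  have hsym := symM v p q hp hq
  interval_cases p <;> interval_cases q <;> first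
    | exact absurd hmod (by decide)
    | exact e0_2
    | exact e0_5
    | exact e1_0
    | exact e1_3
    | exact e1_6
    | exact e2_1
    | exact e2_4
    | exact e3_2
    | exact e4_0
    | exact e4_3
    | exact e5_1
    | exact e7_0
    | (rw [hsym]; norm_num; exact e0_2)
    | (rw [hsym]; norm_num; exact e0_5)
    | (rw [hsym]; norm_num; exact e1_0)
    | (rw [hsym]; norm_num; exact e1_3)
    | (rw [hsym]; norm_num; exact e1_6)
    | (rw [hsym]; norm_num; exact e2_1)
    | (rw [hsym]; norm_num; exact e2_4)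
    | (rw [hsym]; norm_num; exact e3_2)
    | (rw [hsym]; norm_num; exact e4_0)
    | (rw [hsym]; norm_num; exact e4_3)
    | (rw [hsym]; norm_num; exact e5_1)
    | (rw [hsym]; norm_num; exact e7_0)
    | (norm_num at hsym; exact self_eq_neg.1 hsym)

lemma allD (v : ℕ → ℝ) (hv : ∀ L ∈ dLs, quad L v = 0) (p q : ℕ) (hp : p ≤ 8) (hq : q ≤ 8) :
    mom 51 p q (amp v) (amp v)
      = (-1) ^ (p + q) * mom 51 (8 - q) (8 - p) (amp v) (amp v) := by
  have e0_0 := eqD_0_0 v (hv dL0 (by simp [dLs]))
  have e0_3 := eqD_0_3 v (hv dL4 (by simp [dLs])) (hv dL5 (by simp [dLs]))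
  have e0_6 := eqD_0_6 v (hv dL10 (by simp [dLs])) (hv dL11 (by simp [dLs]))
  have e1_1 := eqD_1_1 v (hv dL1 (by simp [dLs]))
  have e1_4 := eqD_1_4 v (hv dL6 (by simp [dLs])) (hv dL7 (by simp [dLs]))
  have e2_2 := eqD_2_2 v (hv dL2 (by simp [dLs]))
  have e2_5 := eqD_2_5 v (hv dL8 (by simp [dLs])) (hv dL9 (by simp [dLs]))
  have e3_3 := eqD_3_3 v (hv dL3 (by simp [dLs]))
  have s0_3 := congrArg star e0_3
  have s0_6 := congrArg star e0_6
  have s1_4 := congrArg star e1_4
  have s2_5 := congrArg star e2_5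
  simp only [star_add, star_sub, mom_star, star_zero] at s0_3 s0_6 s1_4 s2_5
  by_cases hmod : p % 3 = q % 3
  swap
  · rw [momD_mod v p q hmod, momD_mod v (8 - q) (8 - p) (by omega), mul_zero]
  interval_cases p <;> interval_cases q <;> first
    | exact absurd hmod (by decide)
    | (norm_num; done)
    | (norm_num; linear_combination e0_0)
    | (norm_num; linear_combination -e0_0)
    | (norm_num; linear_combination e0_3)
    | (norm_num; linear_combination -e0_3)
    | (norm_num; linear_combination e0_6)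
    | (norm_num; linear_combination -e0_6)
    | (norm_num; linear_combination e1_1)
    | (norm_num; linear_combination -e1_1)
    | (norm_num; linear_combination e1_4)
    | (norm_num; linear_combination -e1_4)
    | (norm_num; linear_combination e2_2)
    | (norm_num; linear_combination -e2_2)
    | (norm_num; linear_combination e2_5)
    | (norm_num; linear_combination -e2_5)
    | (norm_num; linear_combination e3_3)
    | (norm_num; linear_combination -e3_3)
    | (norm_num; linear_combination s0_3)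
    | (norm_num; linear_combination -s0_3)
    | (norm_num; linear_combination s0_6)
    | (norm_num; linear_combination -s0_6)
    | (norm_num; linear_combination s1_4)
    | (norm_num; linear_combination -s1_4)
    | (norm_num; linear_combination s2_5)
    | (norm_num; linear_combination -s2_5)

theorem hasCode_59_4 : HasCode 59 4 := by
  obtain ⟨v, hv1, -, hv⟩ := exists_sol
  refine hasCode_of 59 4 (by norm_num) (amp v) (bmp v) ?_ ?_ ?_
  · intro p q hp hq
    exact allM v hv p q (by omega) (by omega)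
  · intro p q hp hq
    have hp' : p ≤ 8 := by omega
    have hq' : q ≤ 8 := by omega
    show mom 51 p q (amp v) (amp v) = mom 51 p q (bmp v) (bmp v)
    rw [symB v p q hp' hq']
    exact allD v hv p q hp' hq'
  · refine ⟨fun i => decide ((i : ℕ) < 6), ?_⟩
    have hw : wt (fun i : Fin 59 => decide ((i : ℕ) < 6)) = 6 := by
      unfold wt; decide +kernel
    rw [hw, amp_6]
    have h36 := hv1 36 le_rfl
    intro h
    have h2 := congrArg Complex.re h
    simp only [Complex.zero_re] at h2
    rw [h36] at h2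
    norm_num [dV] at h2

end Pool.Agent.V1184.PI
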