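import Pool.Agent.V1184.PI.Defs

/-!
The Knill-Laflamme conditions of a permutation-invariant code follow from finitely many
conditions on the amplitudes.
-/

namespace Pool.Agent.V1184.PI

open Matrix

/-- The basic sesquilinear functionals. -/
noncomputable def mom (m p q : ℕ) (a b : ℕ → ℂ) : ℂ :=
  ∑ k ∈ Finset.range (m + 1), (m.choose k : ℂ) * (star (a (p + k)) * b (q + k))

/-- The form attached to a product operator, evaluated at the states with amplitudes `a (wt x)`
and `b (wt y)`. -/
noncomputable def form (n : ℕ) (T : Fin n → Matrix Bool Bool ℂ) (a b : ℕ → ℂ) : ℂ :=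
  ∑ x : Fin n → Bool, ∑ y : Fin n → Bool, star (a (wt x)) * (∏ i, T i (x i) (y i)) * b (wt y)

/-- The span of the basic functionals. -/
noncomputable def spanMom (n d : ℕ) : Submodule ℂ ((ℕ → ℂ) → (ℕ → ℂ) → ℂ) :=
  Submodule.span ℂ {f | ∃ p q, p ≤ d ∧ q ≤ d ∧ f = mom (n - d) p q}

lemma mom_mem {n d p q : ℕ} (hp : p ≤ d) (hq : q ≤ d) : mom (n - d) p q ∈ spanMom n d :=
  Submodule.subset_span ⟨p, q, hp, hq, rfl⟩

/-- The shift. -/
def sh (b : Bool) (a : ℕ → ℂ) : ℕ → ℂ := fun k => a (b.toNat + k)

/-- Precomposition with shifts. -/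
def shL (b c : Bool) : ((ℕ → ℂ) → (ℕ → ℂ) → ℂ) →ₗ[ℂ] ((ℕ → ℂ) → (ℕ → ℂ) → ℂ) where
  toFun f := fun u v => f (sh b u) (sh c v)
  map_add' _ _ := rfl
  map_smul' _ _ := rfl

lemma wt_cons {n : ℕ} (b : Bool) (x : Fin n → Bool) :
    wt (Fin.cons b x : Fin (n + 1) → Bool) = b.toNat + wt x := by
  simp [wt, Fin.sum_univ_succ]

lemma sum_cons (n : ℕ) (f : (Fin (n + 1) → Bool) → ℂ) :
    ∑ x, f x = ∑ c : Bool, ∑ x : Fin n → Bool, f (Fin.cons c x) := by
  rw [← (Fin.consEquiv (fun _ => Bool)).sum_comp, Fintype.sum_prod_type]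
  rfl

lemma form_succ (n : ℕ) (T : Fin (n + 1) → Matrix Bool Bool ℂ) (a b : ℕ → ℂ) :
    form (n + 1) T a b
      = ∑ c : Bool, ∑ e : Bool, T 0 c e * form n (fun i => T i.succ) (sh c a) (sh e b) := by
  unfold form
  rw [sum_cons]
  apply Finset.sum_congr rfl
  intro c _
  simp_rw [sum_cons]
  rw [Finset.sum_comm]
  apply Finset.sum_congr rfl
  intro e _
  rw [Finset.mul_sum]
  apply Finset.sum_congr rfl
  intro x _
  rw [Finset.mul_sum]
  apply Finset.sum_congr rfl
  intro y _
  rw [wt_cons, wt_cons, Fin.prod_univ_succ]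
  simp only [Fin.cons_zero, Fin.cons_succ, sh]
  ring

lemma mom_succ (m p q : ℕ) (a b : ℕ → ℂ) :
    mom (m + 1) p q a b = mom m p q a b + mom m p q (sh true a) (sh true b) := by
  unfold mom
  rw [Finset.sum_range_succ']
  have h1 : ∀ k ∈ Finset.range (m + 1), ((m + 1).choose (k + 1) : ℂ)
      * (star (a (p + (k + 1))) * b (q + (k + 1)))
      = (m.choose k : ℂ) * (star (sh true a (p + k)) * sh true b (q + k))
        + (m.choose (k + 1) : ℂ) * (star (a (p + (k + 1))) * b (q + (k + 1))) := by
    intro k _
    rw [Nat.choose_succ_succ]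
    simp only [sh, Bool.toNat_true]
    push_cast
    rw [show 1 + (p + k) = p + (k + 1) by ring, show 1 + (q + k) = q + (k + 1) by ring]
    ring
  rw [Finset.sum_congr rfl h1, Finset.sum_add_distrib]
  have h2 : ∑ k ∈ Finset.range (m + 1), (m.choose k : ℂ) * (star (a (p + k)) * b (q + k))
      = ∑ k ∈ Finset.range (m + 1), (m.choose (k + 1) : ℂ)
          * (star (a (p + (k + 1))) * b (q + (k + 1)))
        + (m.choose 0 : ℂ) * (star (a (p + 0)) * b (q + 0)) := by
    rw [← Finset.sum_range_succ' (fun k => (m.choose k : ℂ) * (star (a (p + k)) * b (q + k))),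
      Finset.sum_range_succ _ (m + 1)]
    simp
  rw [h2]
  simp
  ring

lemma mom_sh (m p q : ℕ) (c e : Bool) (a b : ℕ → ℂ) :
    mom m p q (sh c a) (sh e b) = mom m (c.toNat + p) (e.toNat + q) a b := by
  unfold mom sh
  apply Finset.sum_congr rfl
  intro k _
  rw [add_assoc, add_assoc]

lemma shL_mem {n d : ℕ} (c e : Bool) {f : (ℕ → ℂ) → (ℕ → ℂ) → ℂ} (hf : f ∈ spanMom n d) :
    shL c e f ∈ spanMom (n + 1) (d + 1) := by
  unfold spanMom at hf
  induction hf using Submodule.span_induction with
  | mem x hx =>
    obtain ⟨p, q, hp, hq, rfl⟩ := hx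
    have : shL c e (mom (n - d) p q) = mom ((n + 1) - (d + 1)) (c.toNat + p) (e.toNat + q) := by
      funext a b
      rw [Nat.add_sub_add_right]
      exact mom_sh _ _ _ _ _ _ _
    rw [this]
    have hc : c.toNat ≤ 1 := Bool.toNat_le c
    have he : e.toNat ≤ 1 := Bool.toNat_le e
    exact mom_mem (by omega) (by omega)
  | zero => rw [map_zero]; exact Submodule.zero_mem _
  | add x y _ _ hx hy => rw [map_add]; exact Submodule.add_mem _ hx hy
  | smul r x _ hx => rw [map_smul]; exact Submodule.smul_mem _ _ hx

lemma diag_mem {n d : ℕ} (hd : d ≤ n) {f : (ℕ → ℂ) → (ℕ → ℂ) → ℂ} (hf : f ∈ spanMom n d) :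
    f + shL true true f ∈ spanMom (n + 1) d := by
  unfold spanMom at hf
  induction hf using Submodule.span_induction with
  | mem x hx =>
    obtain ⟨p, q, hp, hq, rfl⟩ := hx
    have : mom (n - d) p q + shL true true (mom (n - d) p q) = mom ((n + 1) - d) p q := by
      funext a b
      rw [show n + 1 - d = (n - d) + 1 by omega, mom_succ]
      rfl
    rw [this]
    exact mom_mem hp hq
  | zero => rw [map_zero, add_zero]; exact Submodule.zero_mem _
  | add x y _ _ hx hy =>
    rw [map_add, add_add_add_comm]; exact Submodule.add_mem _ hx hy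
  | smul r x _ hx =>
    rw [map_smul, ← smul_add]; exact Submodule.smul_mem _ _ hx

/-- The form of an operator acting on at most `d` qubits is a combination of basic ones. -/
lemma form_mem (n : ℕ) : ∀ (d : ℕ), d ≤ n → ∀ T : Fin n → Matrix Bool Bool ℂ,
    (Finset.univ.filter fun i => T i ≠ 1).card ≤ d → form n T ∈ spanMom n d := by
  induction n with
  | zero =>
    intro d hd T _
    have : form 0 T = mom (0 - d) 0 0 := by
      funext a b
      simp [form, mom, wt]
    rw [this]
    exact mom_mem (by omega) (by omega)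
  | succ n ih =>
    intro d hd T hT
    have hcard : (Finset.univ.filter fun i => T i ≠ 1).card
        = (if T 0 ≠ 1 then 1 else 0)
          + (Finset.univ.filter fun i : Fin n => T i.succ ≠ 1).card := by
      rw [Finset.card_filter, Finset.card_filter, Fin.sum_univ_succ]
    have hform : form (n + 1) T
        = ∑ c : Bool, ∑ e : Bool, T 0 c e • shL c e (form n fun i => T i.succ) := by
      funext a b
      rw [form_succ]
      simp only [Finset.sum_apply, Pi.smul_apply, smul_eq_mul]
      rfl
    by_cases h : T 0 = 1 ∧ d ≤ n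
    · obtain ⟨h0, hdn⟩ := h
      have h1 : form (n + 1) T = (form n fun i => T i.succ)
          + shL true true (form n fun i => T i.succ) := by
        rw [hform, h0]
        simp only [Fintype.sum_bool, Matrix.one_apply_eq, one_smul]
        rw [Matrix.one_apply_ne (by decide), Matrix.one_apply_ne (by decide)]
        rw [zero_smul, zero_smul, add_zero, zero_add, add_comm]
        congr 1
        funext a b
        have : ∀ u : ℕ → ℂ, sh false u = u := by
          intro u; funext k; simp [sh]
        show form n (fun i => T i.succ) (sh false a) (sh false b) = _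
        rw [this, this]
      rw [h1]
      apply diag_mem hdn
      apply ih d hdn
      rw [hcard] at hT
      omega
    · obtain ⟨d', rfl⟩ : ∃ d', d = d' + 1 := by
        rcases Nat.eq_zero_or_pos d with h0 | h0
        · exfalso
          apply h
          constructor
          · by_contra h2
            rw [hcard, if_pos h2] at hT
            omega
          · omega
        · exact ⟨d - 1, by omega⟩
      rw [hform]
      apply Submodule.sum_mem
      intro c _
      apply Submodule.sum_mem
      intro e _
      apply Submodule.smul_mem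
      apply shL_mem
      apply ih d' (by omega)
      by_cases h0 : T 0 = 1
      · have : ¬ (d' + 1 ≤ n) := fun h2 => h ⟨h0, h2⟩
        have h3 : (Finset.univ.filter fun i : Fin n => T i.succ ≠ 1).card ≤ n := by
          refine (Finset.card_le_univ _).trans ?_
          simp
        omega
      · rw [hcard, if_pos h0] at hT
        omega

end Pool.Agent.V1184.PI
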