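import Pool.Agent.V1184.PI.Data

/-!
The kernel computations.
-/

namespace Pool.Agent.V1184.PI

set_option maxRecDepth 100000

lemma dLs_len : dLs.length = 36 := by decide +kernel

lemma dRows_len : dRows.length = 36 := by decide +kernel

lemma dRow_len : ∀ a ∈ dRows, a.length = 36 := by decide +kernel

lemma dLs_lt : ∀ L ∈ dLs, ∀ t ∈ L, t.2.1 < 38 ∧ t.2.2 < 38 := by decide +kernel

lemma dCols_eq : dCols = (List.range 36).map fun q => dLs.map (jacZ dV q) := by decide +kernel

lemma dW_eq : dW = dLs.map fun L => 2 * absSum L := by decide +kernel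

lemma dQ_eq : dQ = dLs.map (quadZ dV) := by decide +kernel

lemma dChk : rowsOK (rowOK (((73786976294838206464 : ℕ) : ℤ) * ((268435456 : ℕ) : ℤ)) dCols dW dQ 160062239079872160327950528 174316662290797505885728 9499924834411940323689288096) 0 dRows = true := by
  decide +kernel

/-- An exact zero of the system near the approximate one. -/
theorem exists_sol : ∃ v : ℕ → ℝ, (∀ q, 36 ≤ q → v q = (dV.getD q 0 : ℝ) / (268435456 : ℕ)) ∧
      (∀ q, |v q - (dV.getD q 0 : ℝ) / (268435456 : ℕ)| ≤ 1 / (8192 : ℕ)) ∧ ∀ L ∈ dLs, quad L v = 0 :=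
  exists_zero_int 36 38 (by norm_num) dLs dLs_len dLs_lt dV dRows dCols dW dQ dRows_len dRow_len
    dCols_eq dW_eq dQ_eq 73786976294838206464 268435456 8192 160062239079872160327950528 174316662290797505885728 9499924834411940323689288096 (by norm_num) (by norm_num) (by norm_num) dChk
    (by norm_num) (by norm_num)

end Pool.Agent.V1184.PI
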