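import Pool.Agent.V1184.PI.Kern
import Pool.Agent.V1184.PI.Code

/-!
The zero of the quadratic system gives amplitudes with the required moments.
-/

namespace Pool.Agent.V1184.PI

set_option maxRecDepth 100000

/-- The amplitudes of the first codeword. -/
noncomputable def ampList (v : ℕ → ℝ) : List ℂ := [⟨v 0 / 1, v 1 / 1⟩, 0, 0, ⟨v 2 / 128, v 3 / 128⟩, 0, 0, ⟨v 36 / 8192, 0⟩, 0, 0, ⟨v 4 / 131072, v 5 / 131072⟩, 0, 0, ⟨v 6 / 1048576, v 7 / 1048576⟩, 0, 0, ⟨v 8 / 8388608, v 9 / 8388608⟩, 0, 0, ⟨v 10 / 33554432, v 11 / 33554432⟩, 0, 0, ⟨v 12 / 67108864, v 13 / 67108864⟩, 0, 0, ⟨v 14 / 134217728, v 15 / 134217728⟩, 0, 0, ⟨v 16 / 268435456, v 17 / 268435456⟩, 0, 0, ⟨v 18 / 268435456, v 19 / 268435456⟩, 0, 0, ⟨v 20 / 268435456, v 21 / 268435456⟩, 0, 0, ⟨v 22 / 134217728, v 23 / 134217728⟩, 0, 0, ⟨v 24 / 67108864, v 25 / 67108864⟩, 0, 0, ⟨v 26 / 16777216, v 27 / 16777216⟩, 0, 0, ⟨v 28 / 4194304, v 29 / 4194304⟩, 0, 0, ⟨v 37 / 524288,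 0⟩, 0, 0, ⟨v 30 / 65536, v 31 / 65536⟩, 0, 0, ⟨v 32 / 2048, v 33 / 2048⟩, 0, 0, ⟨v 34 / 32, v 35 / 32⟩]

/-- The amplitudes of the first codeword. -/
noncomputable def amp (v : ℕ → ℝ) (j : ℕ) : ℂ := (ampList v).getD j 0

/-- The amplitudes of the second codeword. -/
noncomputable def bmp (v : ℕ → ℝ) (j : ℕ) : ℂ := (-1) ^ j * star (amp v (59 - j))

lemma amp_0 (v : ℕ → ℝ) : amp v 0 = ⟨v 0 / 1, v 1 / 1⟩ := rfl
lemma amp_1 (v : ℕ → ℝ) : amp v 1 = 0 := rfl
lemma amp_2 (v : ℕ → ℝ) : amp v 2 = 0 := rfl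
lemma amp_3 (v : ℕ → ℝ) : amp v 3 = ⟨v 2 / 128, v 3 / 128⟩ := rfl
lemma amp_4 (v : ℕ → ℝ) : amp v 4 = 0 := rfl
lemma amp_5 (v : ℕ → ℝ) : amp v 5 = 0 := rfl
lemma amp_6 (v : ℕ → ℝ) : amp v 6 = ⟨v 36 / 8192, 0⟩ := rfl
lemma amp_7 (v : ℕ → ℝ) : amp v 7 = 0 := rfl
lemma amp_8 (v : ℕ → ℝ) : amp v 8 = 0 := rfl
lemma amp_9 (v : ℕ → ℝ) : amp v 9 = ⟨v 4 / 131072, v 5 / 131072⟩ := rfl
lemma amp_10 (v : ℕ → ℝ) : amp v 10 = 0 := rfl
lemma amp_11 (v : ℕ → ℝ) : amp v 11 = 0 := rfl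
lemma amp_12 (v : ℕ → ℝ) : amp v 12 = ⟨v 6 / 1048576, v 7 / 1048576⟩ := rfl
lemma amp_13 (v : ℕ → ℝ) : amp v 13 = 0 := rfl
lemma amp_14 (v : ℕ → ℝ) : amp v 14 = 0 := rfl
lemma amp_15 (v : ℕ → ℝ) : amp v 15 = ⟨v 8 / 8388608, v 9 / 8388608⟩ := rfl
lemma amp_16 (v : ℕ → ℝ) : amp v 16 = 0 := rfl
lemma amp_17 (v : ℕ → ℝ) : amp v 17 = 0 := rfl
lemma amp_18 (v : ℕ → ℝ) : amp v 18 = ⟨v 10 / 33554432, v 11 / 33554432⟩ := rfl
lemma amp_19 (v : ℕ → ℝ) : amp v 19 = 0 := rfl
lemma amp_20 (v : ℕ → ℝ) : amp v 20 = 0 := rfl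
lemma amp_21 (v : ℕ → ℝ) : amp v 21 = ⟨v 12 / 67108864, v 13 / 67108864⟩ := rfl
lemma amp_22 (v : ℕ → ℝ) : amp v 22 = 0 := rfl
lemma amp_23 (v : ℕ → ℝ) : amp v 23 = 0 := rfl
lemma amp_24 (v : ℕ → ℝ) : amp v 24 = ⟨v 14 / 134217728, v 15 / 134217728⟩ := rfl
lemma amp_25 (v : ℕ → ℝ) : amp v 25 = 0 := rfl
lemma amp_26 (v : ℕ → ℝ) : amp v 26 = 0 := rfl
lemma amp_27 (v : ℕ → ℝ) : amp v 27 = ⟨v 16 / 268435456, v 17 / 268435456⟩ := rfl
lemma amp_28 (v : ℕ → ℝ) : amp v 28 = 0 := rfl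
lemma amp_29 (v : ℕ → ℝ) : amp v 29 = 0 := rfl
lemma amp_30 (v : ℕ → ℝ) : amp v 30 = ⟨v 18 / 268435456, v 19 / 268435456⟩ := rfl
lemma amp_31 (v : ℕ → ℝ) : amp v 31 = 0 := rfl
lemma amp_32 (v : ℕ → ℝ) : amp v 32 = 0 := rfl
lemma amp_33 (v : ℕ → ℝ) : amp v 33 = ⟨v 20 / 268435456, v 21 / 268435456⟩ := rfl
lemma amp_34 (v : ℕ → ℝ) : amp v 34 = 0 := rfl
lemma amp_35 (v : ℕ → ℝ) : amp v 35 = 0 := rfl
lemma amp_36 (v : ℕ → ℝ) : amp v 36 = ⟨v 22 / 134217728, v 23 / 134217728⟩ := rfl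
lemma amp_37 (v : ℕ → ℝ) : amp v 37 = 0 := rfl
lemma amp_38 (v : ℕ → ℝ) : amp v 38 = 0 := rfl
lemma amp_39 (v : ℕ → ℝ) : amp v 39 = ⟨v 24 / 67108864, v 25 / 67108864⟩ := rfl
lemma amp_40 (v : ℕ → ℝ) : amp v 40 = 0 := rfl
lemma amp_41 (v : ℕ → ℝ) : amp v 41 = 0 := rfl
lemma amp_42 (v : ℕ → ℝ) : amp v 42 = ⟨v 26 / 16777216, v 27 / 16777216⟩ := rfl
lemma amp_43 (v : ℕ → ℝ) : amp v 43 = 0 := rfl
lemma amp_44 (v : ℕ → ℝ) : amp v 44 = 0 := rfl
lemma amp_45 (v : ℕ → ℝ) : amp v 45 = ⟨v 28 / 4194304, v 29 / 4194304⟩ := rfl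
lemma amp_46 (v : ℕ → ℝ) : amp v 46 = 0 := rfl
lemma amp_47 (v : ℕ → ℝ) : amp v 47 = 0 := rfl
lemma amp_48 (v : ℕ → ℝ) : amp v 48 = ⟨v 37 / 524288, 0⟩ := rfl
lemma amp_49 (v : ℕ → ℝ) : amp v 49 = 0 := rfl
lemma amp_50 (v : ℕ → ℝ) : amp v 50 = 0 := rfl
lemma amp_51 (v : ℕ → ℝ) : amp v 51 = ⟨v 30 / 65536, v 31 / 65536⟩ := rfl
lemma amp_52 (v : ℕ → ℝ) : amp v 52 = 0 := rfl
lemma amp_53 (v : ℕ → ℝ) : amp v 53 = 0 := rfl
lemma amp_54 (v : ℕ → ℝ) : amp v 54 = ⟨v 32 / 2048, v 33 / 2048⟩ := rfl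
lemma amp_55 (v : ℕ → ℝ) : amp v 55 = 0 := rfl
lemma amp_56 (v : ℕ → ℝ) : amp v 56 = 0 := rfl
lemma amp_57 (v : ℕ → ℝ) : amp v 57 = ⟨v 34 / 32, v 35 / 32⟩ := rfl
lemma amp_58 (v : ℕ → ℝ) : amp v 58 = 0 := rfl
lemma amp_59 (v : ℕ → ℝ) : amp v 59 = 0 := rfl

set_option linter.all false

lemma eqD_0_0 (v : ℕ → ℝ) (h1 : quad dL0 v = 0) :
    mom 51 0 0 (amp v) (amp v) - mom 51 8 8 (amp v) (amp v) = 0 := by
  simp only [dL0, quad, Int.cast_ofNat, Int.cast_neg, Int.cast_one] at h1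
  unfold mom
  simp only [Finset.sum_range_succ, Finset.sum_range_zero, Nat.reduceAdd, Nat.reduceSub, zero_add,
    Nat.sub_zero, amp_0, amp_1, amp_2, amp_3, amp_4, amp_5, amp_6, amp_7, amp_8, amp_9, amp_10, amp_11, amp_12, amp_13, amp_14, amp_15, amp_16, amp_17, amp_18, amp_19, amp_20, amp_21, amp_22, amp_23, amp_24, amp_25, amp_26, amp_27, amp_28, amp_29, amp_30, amp_31, amp_32, amp_33, amp_34, amp_35, amp_36, amp_37, amp_38, amp_39, amp_40, amp_41, amp_42, amp_43, amp_44, amp_45, amp_46, amp_47, amp_48, amp_49, amp_50, amp_51, amp_52, amp_53, amp_54, amp_55, amp_56, amp_57, amp_58, amp_59, star_zero, mul_zero, zero_mul, add_zero]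
  apply Complex.ext
  · norm_num [Nat.choose, Complex.add_re, Complex.mul_re]
    linear_combination (1 / 72057594037927936 : ℝ) * h1
  · norm_num [Nat.choose, Complex.add_im, Complex.mul_im]
    ring_nf

lemma eqD_1_1 (v : ℕ → ℝ) (h1 : quad dL1 v = 0) :
    mom 51 1 1 (amp v) (amp v) - mom 51 7 7 (amp v) (amp v) = 0 := by
  simp only [dL1, quad, Int.cast_ofNat, Int.cast_neg, Int.cast_one] at h1
  unfold mom
  simp only [Finset.sum_range_succ, Finset.sum_range_zero, Nat.reduceAdd, Nat.reduceSub, zero_add,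
    Nat.sub_zero, amp_0, amp_1, amp_2, amp_3, amp_4, amp_5, amp_6, amp_7, amp_8, amp_9, amp_10, amp_11, amp_12, amp_13, amp_14, amp_15, amp_16, amp_17, amp_18, amp_19, amp_20, amp_21, amp_22, amp_23, amp_24, amp_25, amp_26, amp_27, amp_28, amp_29, amp_30, amp_31, amp_32, amp_33, amp_34, amp_35, amp_36, amp_37, amp_38, amp_39, amp_40, amp_41, amp_42, amp_43, amp_44, amp_45, amp_46, amp_47, amp_48, amp_49, amp_50, amp_51, amp_52, amp_53, amp_54, amp_55, amp_56, amp_57, amp_58, amp_59, star_zero, mul_zero, zero_mul, add_zero]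
  apply Complex.ext
  · norm_num [Nat.choose, Complex.add_re, Complex.mul_re]
    linear_combination (1 / 72057594037927936 : ℝ) * h1
  · norm_num [Nat.choose, Complex.add_im, Complex.mul_im]
    ring_nf

lemma eqD_2_2 (v : ℕ → ℝ) (h1 : quad dL2 v = 0) :
    mom 51 2 2 (amp v) (amp v) - mom 51 6 6 (amp v) (amp v) = 0 := by
  simp only [dL2, quad, Int.cast_ofNat, Int.cast_neg, Int.cast_one] at h1
  unfold mom
  simp only [Finset.sum_range_succ, Finset.sum_range_zero, Nat.reduceAdd, Nat.reduceSub, zero_add,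
    Nat.sub_zero, amp_0, amp_1, amp_2, amp_3, amp_4, amp_5, amp_6, amp_7, amp_8, amp_9, amp_10, amp_11, amp_12, amp_13, amp_14, amp_15, amp_16, amp_17, amp_18, amp_19, amp_20, amp_21, amp_22, amp_23, amp_24, amp_25, amp_26, amp_27, amp_28, amp_29, amp_30, amp_31, amp_32, amp_33, amp_34, amp_35, amp_36, amp_37, amp_38, amp_39, amp_40, amp_41, amp_42, amp_43, amp_44, amp_45, amp_46, amp_47, amp_48, amp_49, amp_50, amp_51, amp_52, amp_53, amp_54, amp_55, amp_56, amp_57, amp_58, amp_59, star_zero, mul_zero, zero_mul, add_zero]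
  apply Complex.ext
  · norm_num [Nat.choose, Complex.add_re, Complex.mul_re]
    linear_combination (4 / 72057594037927936 : ℝ) * h1
  · norm_num [Nat.choose, Complex.add_im, Complex.mul_im]
    ring_nf

lemma eqD_3_3 (v : ℕ → ℝ) (h1 : quad dL3 v = 0) :
    mom 51 3 3 (amp v) (amp v) - mom 51 5 5 (amp v) (amp v) = 0 := by
  simp only [dL3, quad, Int.cast_ofNat, Int.cast_neg, Int.cast_one] at h1
  unfold mom
  simp only [Finset.sum_range_succ, Finset.sum_range_zero, Nat.reduceAdd, Nat.reduceSub, zero_add,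
    Nat.sub_zero, amp_0, amp_1, amp_2, amp_3, amp_4, amp_5, amp_6, amp_7, amp_8, amp_9, amp_10, amp_11, amp_12, amp_13, amp_14, amp_15, amp_16, amp_17, amp_18, amp_19, amp_20, amp_21, amp_22, amp_23, amp_24, amp_25, amp_26, amp_27, amp_28, amp_29, amp_30, amp_31, amp_32, amp_33, amp_34, amp_35, amp_36, amp_37, amp_38, amp_39, amp_40, amp_41, amp_42, amp_43, amp_44, amp_45, amp_46, amp_47, amp_48, amp_49, amp_50, amp_51, amp_52, amp_53, amp_54, amp_55, amp_56, amp_57, amp_58, amp_59, star_zero, mul_zero, zero_mul, add_zero]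
  apply Complex.ext
  · norm_num [Nat.choose, Complex.add_re, Complex.mul_re]
    linear_combination (4 / 72057594037927936 : ℝ) * h1
  · norm_num [Nat.choose, Complex.add_im, Complex.mul_im]
    ring_nf

lemma eqD_0_3 (v : ℕ → ℝ) (h1 : quad dL4 v = 0) (h2 : quad dL5 v = 0) :
    mom 51 0 3 (amp v) (amp v) + mom 51 5 8 (amp v) (amp v) = 0 := by
  simp only [dL4, dL5, quad, Int.cast_ofNat, Int.cast_neg, Int.cast_one] at h1 h2
  unfold mom
  simp only [Finset.sum_range_succ, Finset.sum_range_zero, Nat.reduceAdd, Nat.reduceSub, zero_add,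
    Nat.sub_zero, amp_0, amp_1, amp_2, amp_3, amp_4, amp_5, amp_6, amp_7, amp_8, amp_9, amp_10, amp_11, amp_12, amp_13, amp_14, amp_15, amp_16, amp_17, amp_18, amp_19, amp_20, amp_21, amp_22, amp_23, amp_24, amp_25, amp_26, amp_27, amp_28, amp_29, amp_30, amp_31, amp_32, amp_33, amp_34, amp_35, amp_36, amp_37, amp_38, amp_39, amp_40, amp_41, amp_42, amp_43, amp_44, amp_45, amp_46, amp_47, amp_48, amp_49, amp_50, amp_51, amp_52, amp_53, amp_54, amp_55, amp_56, amp_57, amp_58, amp_59, star_zero, mul_zero, zero_mul, add_zero]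
  apply Complex.ext
  · norm_num [Nat.choose, Complex.add_re, Complex.mul_re]
    linear_combination (2 / 72057594037927936 : ℝ) * h1
  · norm_num [Nat.choose, Complex.add_im, Complex.mul_im]
    linear_combination (2 / 72057594037927936 : ℝ) * h2

lemma eqD_1_4 (v : ℕ → ℝ) (h1 : quad dL6 v = 0) (h2 : quad dL7 v = 0) :
    mom 51 1 4 (amp v) (amp v) + mom 51 4 7 (amp v) (amp v) = 0 := by
  simp only [dL6, dL7, quad, Int.cast_ofNat, Int.cast_neg, Int.cast_one] at h1 h2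
  unfold mom
  simp only [Finset.sum_range_succ, Finset.sum_range_zero, Nat.reduceAdd, Nat.reduceSub, zero_add,
    Nat.sub_zero, amp_0, amp_1, amp_2, amp_3, amp_4, amp_5, amp_6, amp_7, amp_8, amp_9, amp_10, amp_11, amp_12, amp_13, amp_14, amp_15, amp_16, amp_17, amp_18, amp_19, amp_20, amp_21, amp_22, amp_23, amp_24, amp_25, amp_26, amp_27, amp_28, amp_29, amp_30, amp_31, amp_32, amp_33, amp_34, amp_35, amp_36, amp_37, amp_38, amp_39, amp_40, amp_41, amp_42, amp_43, amp_44, amp_45, amp_46, amp_47, amp_48, amp_49, amp_50, amp_51, amp_52, amp_53, amp_54, amp_55, amp_56, amp_57, amp_58, amp_59, star_zero, mul_zero, zero_mul, add_zero]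
  apply Complex.ext
  · norm_num [Nat.choose, Complex.add_re, Complex.mul_re]
    linear_combination (2 / 72057594037927936 : ℝ) * h1
  · norm_num [Nat.choose, Complex.add_im, Complex.mul_im]
    linear_combination (2 / 72057594037927936 : ℝ) * h2

lemma eqD_2_5 (v : ℕ → ℝ) (h1 : quad dL8 v = 0) (h2 : quad dL9 v = 0) :
    mom 51 2 5 (amp v) (amp v) + mom 51 3 6 (amp v) (amp v) = 0 := by
  simp only [dL8, dL9, quad, Int.cast_ofNat, Int.cast_neg, Int.cast_one] at h1 h2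
  unfold mom
  simp only [Finset.sum_range_succ, Finset.sum_range_zero, Nat.reduceAdd, Nat.reduceSub, zero_add,
    Nat.sub_zero, amp_0, amp_1, amp_2, amp_3, amp_4, amp_5, amp_6, amp_7, amp_8, amp_9, amp_10, amp_11, amp_12, amp_13, amp_14, amp_15, amp_16, amp_17, amp_18, amp_19, amp_20, amp_21, amp_22, amp_23, amp_24, amp_25, amp_26, amp_27, amp_28, amp_29, amp_30, amp_31, amp_32, amp_33, amp_34, amp_35, amp_36, amp_37, amp_38, amp_39, amp_40, amp_41, amp_42, amp_43, amp_44, amp_45, amp_46, amp_47, amp_48, amp_49, amp_50, amp_51, amp_52, amp_53, amp_54, amp_55, amp_56, amp_57, amp_58, amp_59, star_zero, mul_zero, zero_mul, add_zero]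
  apply Complex.ext
  · norm_num [Nat.choose, Complex.add_re, Complex.mul_re]
    linear_combination (4 / 72057594037927936 : ℝ) * h1
  · norm_num [Nat.choose, Complex.add_im, Complex.mul_im]
    linear_combination (4 / 72057594037927936 : ℝ) * h2

lemma eqD_0_6 (v : ℕ → ℝ) (h1 : quad dL10 v = 0) (h2 : quad dL11 v = 0) :
    mom 51 0 6 (amp v) (amp v) - mom 51 2 8 (amp v) (amp v) = 0 := by
  simp only [dL10, dL11, quad, Int.cast_ofNat, Int.cast_neg, Int.cast_one] at h1 h2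
  unfold mom
  simp only [Finset.sum_range_succ, Finset.sum_range_zero, Nat.reduceAdd, Nat.reduceSub, zero_add,
    Nat.sub_zero, amp_0, amp_1, amp_2, amp_3, amp_4, amp_5, amp_6, amp_7, amp_8, amp_9, amp_10, amp_11, amp_12, amp_13, amp_14, amp_15, amp_16, amp_17, amp_18, amp_19, amp_20, amp_21, amp_22, amp_23, amp_24, amp_25, amp_26, amp_27, amp_28, amp_29, amp_30, amp_31, amp_32, amp_33, amp_34, amp_35, amp_36, amp_37, amp_38, amp_39, amp_40, amp_41, amp_42, amp_43, amp_44, amp_45, amp_46, amp_47, amp_48, amp_49, amp_50, amp_51, amp_52, amp_53, amp_54, amp_55, amp_56, amp_57, amp_58, amp_59, star_zero, mul_zero, zero_mul, add_zero]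
  apply Complex.ext
  · norm_num [Nat.choose, Complex.add_re, Complex.mul_re]
    linear_combination (4 / 72057594037927936 : ℝ) * h1
  · norm_num [Nat.choose, Complex.add_im, Complex.mul_im]
    linear_combination (4 / 72057594037927936 : ℝ) * h2

lemma eqM_0_2 (v : ℕ → ℝ) (h1 : quad dL12 v = 0) (h2 : quad dL13 v = 0) :
    mom 51 0 2 (amp v) (bmp v) = 0 := by
  simp only [dL12, dL13, quad, Int.cast_ofNat, Int.cast_neg, Int.cast_one] at h1 h2
  unfold mom bmp
  simp only [Finset.sum_range_succ, Finset.sum_range_zero, Nat.reduceAdd, Nat.reduceSub, zero_add,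
    Nat.sub_zero, amp_0, amp_1, amp_2, amp_3, amp_4, amp_5, amp_6, amp_7, amp_8, amp_9, amp_10, amp_11, amp_12, amp_13, amp_14, amp_15, amp_16, amp_17, amp_18, amp_19, amp_20, amp_21, amp_22, amp_23, amp_24, amp_25, amp_26, amp_27, amp_28, amp_29, amp_30, amp_31, amp_32, amp_33, amp_34, amp_35, amp_36, amp_37, amp_38, amp_39, amp_40, amp_41, amp_42, amp_43, amp_44, amp_45, amp_46, amp_47, amp_48, amp_49, amp_50, amp_51, amp_52, amp_53, amp_54, amp_55, amp_56, amp_57, amp_58, amp_59, star_zero, mul_zero, zero_mul, add_zero]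
  apply Complex.ext
  · norm_num [Nat.choose, Complex.add_re, Complex.mul_re]
    linear_combination (2 / 72057594037927936 : ℝ) * h1
  · norm_num [Nat.choose, Complex.add_im, Complex.mul_im]
    linear_combination (-(2 / 72057594037927936) : ℝ) * h2

lemma eqM_1_3 (v : ℕ → ℝ) (h1 : quad dL14 v = 0) (h2 : quad dL15 v = 0) :
    mom 51 1 3 (amp v) (bmp v) = 0 := by
  simp only [dL14, dL15, quad, Int.cast_ofNat, Int.cast_neg, Int.cast_one] at h1 h2
  unfold mom bmp
  simp only [Finset.sum_range_succ, Finset.sum_range_zero, Nat.reduceAdd, Nat.reduceSub, zero_add,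
    Nat.sub_zero, amp_0, amp_1, amp_2, amp_3, amp_4, amp_5, amp_6, amp_7, amp_8, amp_9, amp_10, amp_11, amp_12, amp_13, amp_14, amp_15, amp_16, amp_17, amp_18, amp_19, amp_20, amp_21, amp_22, amp_23, amp_24, amp_25, amp_26, amp_27, amp_28, amp_29, amp_30, amp_31, amp_32, amp_33, amp_34, amp_35, amp_36, amp_37, amp_38, amp_39, amp_40, amp_41, amp_42, amp_43, amp_44, amp_45, amp_46, amp_47, amp_48, amp_49, amp_50, amp_51, amp_52, amp_53, amp_54, amp_55, amp_56, amp_57, amp_58, amp_59, star_zero, mul_zero, zero_mul, add_zero]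
  apply Complex.ext
  · norm_num [Nat.choose, Complex.add_re, Complex.mul_re]
    linear_combination (2 / 72057594037927936 : ℝ) * h1
  · norm_num [Nat.choose, Complex.add_im, Complex.mul_im]
    linear_combination (-(2 / 72057594037927936) : ℝ) * h2

lemma eqM_2_4 (v : ℕ → ℝ) (h1 : quad dL16 v = 0) (h2 : quad dL17 v = 0) :
    mom 51 2 4 (amp v) (bmp v) = 0 := by
  simp only [dL16, dL17, quad, Int.cast_ofNat, Int.cast_neg, Int.cast_one] at h1 h2
  unfold mom bmp
  simp only [Finset.sum_range_succ, Finset.sum_range_zero, Nat.reduceAdd, Nat.reduceSub, zero_add,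
    Nat.sub_zero, amp_0, amp_1, amp_2, amp_3, amp_4, amp_5, amp_6, amp_7, amp_8, amp_9, amp_10, amp_11, amp_12, amp_13, amp_14, amp_15, amp_16, amp_17, amp_18, amp_19, amp_20, amp_21, amp_22, amp_23, amp_24, amp_25, amp_26, amp_27, amp_28, amp_29, amp_30, amp_31, amp_32, amp_33, amp_34, amp_35, amp_36, amp_37, amp_38, amp_39, amp_40, amp_41, amp_42, amp_43, amp_44, amp_45, amp_46, amp_47, amp_48, amp_49, amp_50, amp_51, amp_52, amp_53, amp_54, amp_55, amp_56, amp_57, amp_58, amp_59, star_zero, mul_zero, zero_mul, add_zero]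
  apply Complex.ext
  · norm_num [Nat.choose, Complex.add_re, Complex.mul_re]
    linear_combination (4 / 72057594037927936 : ℝ) * h1
  · norm_num [Nat.choose, Complex.add_im, Complex.mul_im]
    linear_combination (-(4 / 72057594037927936) : ℝ) * h2

lemma eqM_0_5 (v : ℕ → ℝ) (h1 : quad dL18 v = 0) (h2 : quad dL19 v = 0) :
    mom 51 0 5 (amp v) (bmp v) = 0 := by
  simp only [dL18, dL19, quad, Int.cast_ofNat, Int.cast_neg, Int.cast_one] at h1 h2
  unfold mom bmp
  simp only [Finset.sum_range_succ, Finset.sum_range_zero, Nat.reduceAdd, Nat.reduceSub, zero_add,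
    Nat.sub_zero, amp_0, amp_1, amp_2, amp_3, amp_4, amp_5, amp_6, amp_7, amp_8, amp_9, amp_10, amp_11, amp_12, amp_13, amp_14, amp_15, amp_16, amp_17, amp_18, amp_19, amp_20, amp_21, amp_22, amp_23, amp_24, amp_25, amp_26, amp_27, amp_28, amp_29, amp_30, amp_31, amp_32, amp_33, amp_34, amp_35, amp_36, amp_37, amp_38, amp_39, amp_40, amp_41, amp_42, amp_43, amp_44, amp_45, amp_46, amp_47, amp_48, amp_49, amp_50, amp_51, amp_52, amp_53, amp_54, amp_55, amp_56, amp_57, amp_58, amp_59, star_zero, mul_zero, zero_mul, add_zero]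
  apply Complex.ext
  · norm_num [Nat.choose, Complex.add_re, Complex.mul_re]
    linear_combination (4 / 72057594037927936 : ℝ) * h1
  · norm_num [Nat.choose, Complex.add_im, Complex.mul_im]
    linear_combination (-(4 / 72057594037927936) : ℝ) * h2

lemma eqM_1_6 (v : ℕ → ℝ) (h1 : quad dL20 v = 0) (h2 : quad dL21 v = 0) :
    mom 51 1 6 (amp v) (bmp v) = 0 := by
  simp only [dL20, dL21, quad, Int.cast_ofNat, Int.cast_neg, Int.cast_one] at h1 h2
  unfold mom bmp
  simp only [Finset.sum_range_succ, Finset.sum_range_zero, Nat.reduceAdd, Nat.reduceSub, zero_add,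
    Nat.sub_zero, amp_0, amp_1, amp_2, amp_3, amp_4, amp_5, amp_6, amp_7, amp_8, amp_9, amp_10, amp_11, amp_12, amp_13, amp_14, amp_15, amp_16, amp_17, amp_18, amp_19, amp_20, amp_21, amp_22, amp_23, amp_24, amp_25, amp_26, amp_27, amp_28, amp_29, amp_30, amp_31, amp_32, amp_33, amp_34, amp_35, amp_36, amp_37, amp_38, amp_39, amp_40, amp_41, amp_42, amp_43, amp_44, amp_45, amp_46, amp_47, amp_48, amp_49, amp_50, amp_51, amp_52, amp_53, amp_54, amp_55, amp_56, amp_57, amp_58, amp_59, star_zero, mul_zero, zero_mul, add_zero]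
  apply Complex.ext
  · norm_num [Nat.choose, Complex.add_re, Complex.mul_re]
    linear_combination (4 / 72057594037927936 : ℝ) * h1
  · norm_num [Nat.choose, Complex.add_im, Complex.mul_im]
    linear_combination (-(4 / 72057594037927936) : ℝ) * h2

lemma eqM_1_0 (v : ℕ → ℝ) (h1 : quad dL22 v = 0) (h2 : quad dL23 v = 0) :
    mom 51 1 0 (amp v) (bmp v) = 0 := by
  simp only [dL22, dL23, quad, Int.cast_ofNat, Int.cast_neg, Int.cast_one] at h1 h2
  unfold mom bmp
  simp only [Finset.sum_range_succ, Finset.sum_range_zero, Nat.reduceAdd, Nat.reduceSub, zero_add,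
    Nat.sub_zero, amp_0, amp_1, amp_2, amp_3, amp_4, amp_5, amp_6, amp_7, amp_8, amp_9, amp_10, amp_11, amp_12, amp_13, amp_14, amp_15, amp_16, amp_17, amp_18, amp_19, amp_20, amp_21, amp_22, amp_23, amp_24, amp_25, amp_26, amp_27, amp_28, amp_29, amp_30, amp_31, amp_32, amp_33, amp_34, amp_35, amp_36, amp_37, amp_38, amp_39, amp_40, amp_41, amp_42, amp_43, amp_44, amp_45, amp_46, amp_47, amp_48, amp_49, amp_50, amp_51, amp_52, amp_53, amp_54, amp_55, amp_56, amp_57, amp_58, amp_59, star_zero, mul_zero, zero_mul, add_zero]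
  apply Complex.ext
  · norm_num [Nat.choose, Complex.add_re, Complex.mul_re]
    linear_combination (1 / 72057594037927936 : ℝ) * h1
  · norm_num [Nat.choose, Complex.add_im, Complex.mul_im]
    linear_combination (-(1 / 72057594037927936) : ℝ) * h2

lemma eqM_2_1 (v : ℕ → ℝ) (h1 : quad dL24 v = 0) (h2 : quad dL25 v = 0) :
    mom 51 2 1 (amp v) (bmp v) = 0 := by
  simp only [dL24, dL25, quad, Int.cast_ofNat, Int.cast_neg, Int.cast_one] at h1 h2
  unfold mom bmp
  simp only [Finset.sum_range_succ, Finset.sum_range_zero, Nat.reduceAdd, Nat.reduceSub, zero_add,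
    Nat.sub_zero, amp_0, amp_1, amp_2, amp_3, amp_4, amp_5, amp_6, amp_7, amp_8, amp_9, amp_10, amp_11, amp_12, amp_13, amp_14, amp_15, amp_16, amp_17, amp_18, amp_19, amp_20, amp_21, amp_22, amp_23, amp_24, amp_25, amp_26, amp_27, amp_28, amp_29, amp_30, amp_31, amp_32, amp_33, amp_34, amp_35, amp_36, amp_37, amp_38, amp_39, amp_40, amp_41, amp_42, amp_43, amp_44, amp_45, amp_46, amp_47, amp_48, amp_49, amp_50, amp_51, amp_52, amp_53, amp_54, amp_55, amp_56, amp_57, amp_58, amp_59, star_zero, mul_zero, zero_mul, add_zero]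
  apply Complex.ext
  · norm_num [Nat.choose, Complex.add_re, Complex.mul_re]
    linear_combination (4 / 72057594037927936 : ℝ) * h1
  · norm_num [Nat.choose, Complex.add_im, Complex.mul_im]
    linear_combination (-(4 / 72057594037927936) : ℝ) * h2

lemma eqM_3_2 (v : ℕ → ℝ) (h1 : quad dL26 v = 0) (h2 : quad dL27 v = 0) :
    mom 51 3 2 (amp v) (bmp v) = 0 := by
  simp only [dL26, dL27, quad, Int.cast_ofNat, Int.cast_neg, Int.cast_one] at h1 h2
  unfold mom bmp
  simp only [Finset.sum_range_succ, Finset.sum_range_zero, Nat.reduceAdd, Nat.reduceSub, zero_add,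
    Nat.sub_zero, amp_0, amp_1, amp_2, amp_3, amp_4, amp_5, amp_6, amp_7, amp_8, amp_9, amp_10, amp_11, amp_12, amp_13, amp_14, amp_15, amp_16, amp_17, amp_18, amp_19, amp_20, amp_21, amp_22, amp_23, amp_24, amp_25, amp_26, amp_27, amp_28, amp_29, amp_30, amp_31, amp_32, amp_33, amp_34, amp_35, amp_36, amp_37, amp_38, amp_39, amp_40, amp_41, amp_42, amp_43, amp_44, amp_45, amp_46, amp_47, amp_48, amp_49, amp_50, amp_51, amp_52, amp_53, amp_54, amp_55, amp_56, amp_57, amp_58, amp_59, star_zero, mul_zero, zero_mul, add_zero]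
  apply Complex.ext
  · norm_num [Nat.choose, Complex.add_re, Complex.mul_re]
    linear_combination (4 / 72057594037927936 : ℝ) * h1
  · norm_num [Nat.choose, Complex.add_im, Complex.mul_im]
    linear_combination (-(4 / 72057594037927936) : ℝ) * h2

lemma eqM_4_3 (v : ℕ → ℝ) (h1 : quad dL28 v = 0) (h2 : quad dL29 v = 0) :
    mom 51 4 3 (amp v) (bmp v) = 0 := by
  simp only [dL28, dL29, quad, Int.cast_ofNat, Int.cast_neg, Int.cast_one] at h1 h2
  unfold mom bmp
  simp only [Finset.sum_range_succ, Finset.sum_range_zero, Nat.reduceAdd, Nat.reduceSub, zero_add,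
    Nat.sub_zero, amp_0, amp_1, amp_2, amp_3, amp_4, amp_5, amp_6, amp_7, amp_8, amp_9, amp_10, amp_11, amp_12, amp_13, amp_14, amp_15, amp_16, amp_17, amp_18, amp_19, amp_20, amp_21, amp_22, amp_23, amp_24, amp_25, amp_26, amp_27, amp_28, amp_29, amp_30, amp_31, amp_32, amp_33, amp_34, amp_35, amp_36, amp_37, amp_38, amp_39, amp_40, amp_41, amp_42, amp_43, amp_44, amp_45, amp_46, amp_47, amp_48, amp_49, amp_50, amp_51, amp_52, amp_53, amp_54, amp_55, amp_56, amp_57, amp_58, amp_59, star_zero, mul_zero, zero_mul, add_zero]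
  apply Complex.ext
  · norm_num [Nat.choose, Complex.add_re, Complex.mul_re]
    linear_combination (4 / 72057594037927936 : ℝ) * h1
  · norm_num [Nat.choose, Complex.add_im, Complex.mul_im]
    linear_combination (-(4 / 72057594037927936) : ℝ) * h2

lemma eqM_4_0 (v : ℕ → ℝ) (h1 : quad dL30 v = 0) (h2 : quad dL31 v = 0) :
    mom 51 4 0 (amp v) (bmp v) = 0 := by
  simp only [dL30, dL31, quad, Int.cast_ofNat, Int.cast_neg, Int.cast_one] at h1 h2
  unfold mom bmp
  simp only [Finset.sum_range_succ, Finset.sum_range_zero, Nat.reduceAdd, Nat.reduceSub, zero_add,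
    Nat.sub_zero, amp_0, amp_1, amp_2, amp_3, amp_4, amp_5, amp_6, amp_7, amp_8, amp_9, amp_10, amp_11, amp_12, amp_13, amp_14, amp_15, amp_16, amp_17, amp_18, amp_19, amp_20, amp_21, amp_22, amp_23, amp_24, amp_25, amp_26, amp_27, amp_28, amp_29, amp_30, amp_31, amp_32, amp_33, amp_34, amp_35, amp_36, amp_37, amp_38, amp_39, amp_40, amp_41, amp_42, amp_43, amp_44, amp_45, amp_46, amp_47, amp_48, amp_49, amp_50, amp_51, amp_52, amp_53, amp_54, amp_55, amp_56, amp_57, amp_58, amp_59, star_zero, mul_zero, zero_mul, add_zero]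
  apply Complex.ext
  · norm_num [Nat.choose, Complex.add_re, Complex.mul_re]
    linear_combination (2 / 72057594037927936 : ℝ) * h1
  · norm_num [Nat.choose, Complex.add_im, Complex.mul_im]
    linear_combination (-(2 / 72057594037927936) : ℝ) * h2

lemma eqM_5_1 (v : ℕ → ℝ) (h1 : quad dL32 v = 0) (h2 : quad dL33 v = 0) :
    mom 51 5 1 (amp v) (bmp v) = 0 := by
  simp only [dL32, dL33, quad, Int.cast_ofNat, Int.cast_neg, Int.cast_one] at h1 h2
  unfold mom bmp
  simp only [Finset.sum_range_succ, Finset.sum_range_zero, Nat.reduceAdd, Nat.reduceSub, zero_add,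
    Nat.sub_zero, amp_0, amp_1, amp_2, amp_3, amp_4, amp_5, amp_6, amp_7, amp_8, amp_9, amp_10, amp_11, amp_12, amp_13, amp_14, amp_15, amp_16, amp_17, amp_18, amp_19, amp_20, amp_21, amp_22, amp_23, amp_24, amp_25, amp_26, amp_27, amp_28, amp_29, amp_30, amp_31, amp_32, amp_33, amp_34, amp_35, amp_36, amp_37, amp_38, amp_39, amp_40, amp_41, amp_42, amp_43, amp_44, amp_45, amp_46, amp_47, amp_48, amp_49, amp_50, amp_51, amp_52, amp_53, amp_54, amp_55, amp_56, amp_57, amp_58, amp_59, star_zero, mul_zero, zero_mul, add_zero]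
  apply Complex.ext
  · norm_num [Nat.choose, Complex.add_re, Complex.mul_re]
    linear_combination (4 / 72057594037927936 : ℝ) * h1
  · norm_num [Nat.choose, Complex.add_im, Complex.mul_im]
    linear_combination (-(4 / 72057594037927936) : ℝ) * h2

lemma eqM_7_0 (v : ℕ → ℝ) (h1 : quad dL34 v = 0) (h2 : quad dL35 v = 0) :
    mom 51 7 0 (amp v) (bmp v) = 0 := by
  simp only [dL34, dL35, quad, Int.cast_ofNat, Int.cast_neg, Int.cast_one] at h1 h2
  unfold mom bmp
  simp only [Finset.sum_range_succ, Finset.sum_range_zero, Nat.reduceAdd, Nat.reduceSub, zero_add,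
    Nat.sub_zero, amp_0, amp_1, amp_2, amp_3, amp_4, amp_5, amp_6, amp_7, amp_8, amp_9, amp_10, amp_11, amp_12, amp_13, amp_14, amp_15, amp_16, amp_17, amp_18, amp_19, amp_20, amp_21, amp_22, amp_23, amp_24, amp_25, amp_26, amp_27, amp_28, amp_29, amp_30, amp_31, amp_32, amp_33, amp_34, amp_35, amp_36, amp_37, amp_38, amp_39, amp_40, amp_41, amp_42, amp_43, amp_44, amp_45, amp_46, amp_47, amp_48, amp_49, amp_50, amp_51, amp_52, amp_53, amp_54, amp_55, amp_56, amp_57, amp_58, amp_59, star_zero, mul_zero, zero_mul, add_zero]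
  apply Complex.ext
  · norm_num [Nat.choose, Complex.add_re, Complex.mul_re]
    linear_combination (4 / 72057594037927936 : ℝ) * h1
  · norm_num [Nat.choose, Complex.add_im, Complex.mul_im]
    linear_combination (-(4 / 72057594037927936) : ℝ) * h2

end Pool.Agent.V1184.PI
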